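import Pool.Agent.L0h76.H.Defs

/-!
# Module A: Fourier coefficients of trapezoids
-/

set_option autoImplicit false

namespace Pool.Agent.L0h76.H

open Finset

lemma hat_ind {N : ℕ} [NeZero N] (c : ZMod N) (l : ℕ) (m : ZMod N) :
    hat (ind c l) m = ZMod.stdAddChar (-(m * c)) * ∑ j ∈ range l, (ZMod.stdAddChar (-m)) ^ j := by
  unfold hat ind
  push_cast
  simp_rw [Finset.sum_mul]
  rw [Finset.sum_comm, Finset.mul_sum]
  refine Finset.sum_congr rfl fun j _ => ?_
  have : ∀ x : ZMod N, ((if x = c + (j : ZMod N) then (1 : ℂ) else 0) * ZMod.stdAddChar (-(m * x)))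
      = if x = c + (j : ZMod N) then ZMod.stdAddChar (-(m * (c + (j : ZMod N)))) else 0 := by
    intro x
    split_ifs with h
    · rw [h, one_mul]
    · rw [zero_mul]
  have h2 : ∀ x : ZMod N, (((if x = c + (j : ZMod N) then (1 : ℝ) else 0 : ℝ) : ℂ)) =
      if x = c + (j : ZMod N) then (1 : ℂ) else 0 := by
    intro x; split_ifs <;> simp
  simp_rw [h2, this]
  rw [Finset.sum_ite_eq' univ]
  simp only [mem_univ, if_true]
  have : -(m * (c + (j : ZMod N))) = -(m * c) + j • (-m) := by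
    rw [nsmul_eq_mul]; ring
  rw [this, AddChar.map_add_eq_mul, AddChar.map_nsmul_eq_pow]

lemma hat_ker {N : ℕ} [NeZero N] (w w' : ℕ) (c m : ZMod N) :
    hat (ker w w' c) m = ZMod.stdAddChar (-(m * c)) *
      ((∑ j ∈ range w, (ZMod.stdAddChar (-m)) ^ j) * (∑ j ∈ range w', (ZMod.stdAddChar (-m)) ^ j)) / w := by
  have h1 : hat (ker w w' c) m = (∑ i ∈ range w, hat (ind (c + (i : ZMod N)) w') m) / w := by
    unfold hat ker
    push_cast
    rw [Finset.sum_comm, Finset.sum_div]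
    refine Finset.sum_congr rfl fun x _ => ?_
    rw [← Finset.sum_mul]
    ring
  rw [h1]
  congr 1
  simp_rw [hat_ind]
  rw [Finset.sum_mul, Finset.mul_sum]
  refine Finset.sum_congr rfl fun i _ => ?_
  have : -(m * (c + (i : ZMod N))) = -(m * c) + i • (-m) := by
    rw [nsmul_eq_mul]; ring
  rw [this, AddChar.map_add_eq_mul, AddChar.map_nsmul_eq_pow]
  ring

lemma cabs_le {N : ℕ} [NeZero N] (m : ZMod N) : cabs m ≤ N / 2 := ZMod.natAbs_valMinAbs_le m

lemma norm_char {N : ℕ} [NeZero N] (m : ZMod N) : ‖(ZMod.stdAddChar m : ℂ)‖ = 1 :=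
  AddChar.norm_apply _ _

lemma geom_le {N : ℕ} [NeZero N] (m : ZMod N) (l : ℕ) :
    ‖∑ j ∈ range l, (ZMod.stdAddChar (-m) : ℂ) ^ j‖ ≤ l := by
  refine (norm_sum_le _ _).trans ?_
  simp only [norm_pow, norm_char, one_pow, sum_const, card_range, nsmul_eq_mul, mul_one, le_refl]

lemma char_sub_one {N : ℕ} [NeZero N] (m : ZMod N) :
    4 * (cabs m : ℝ) / N ≤ ‖(ZMod.stdAddChar (-m) : ℂ) - 1‖ := by
  have hN : (0 : ℝ) < N := by exact_mod_cast Nat.pos_of_ne_zero (NeZero.ne N)
  have hm : -m = ((-(m.valMinAbs) : ℤ) : ZMod N) := by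
    push_cast
    rfl
  rw [hm, ZMod.stdAddChar_coe]
  have h1 : (2 * (Real.pi : ℂ) * Complex.I * ((-(m.valMinAbs) : ℤ) : ℂ) / N)
      = Complex.I * ((2 * Real.pi * (-(m.valMinAbs) : ℝ) / N : ℝ) : ℂ) := by
    push_cast; ring
  rw [h1, Complex.norm_exp_I_mul_ofReal_sub_one]
  have hc : |(m.valMinAbs : ℝ)| = (cabs m : ℝ) := by
    unfold cabs
    rw [Nat.cast_natAbs, Int.cast_abs]
  have habs : |(2 * Real.pi * (-(m.valMinAbs) : ℝ) / N) / 2| = Real.pi * (cabs m : ℝ) / N := by
    rw [← hc]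
    have : (2 * Real.pi * (-(m.valMinAbs) : ℝ) / N) / 2 = -(Real.pi * (m.valMinAbs : ℝ) / N) := by
      ring
    rw [this, abs_neg, abs_div, abs_mul, abs_of_pos Real.pi_pos, abs_of_pos hN]
  have hle : |(2 * Real.pi * (-(m.valMinAbs) : ℝ) / N) / 2| ≤ Real.pi / 2 := by
    rw [habs, div_le_iff₀ hN]
    have : (cabs m : ℝ) ≤ (N : ℝ) / 2 := by
      have := cabs_le m
      have h3 : cabs m * 2 ≤ N := by omega
      have h4 : (cabs m : ℝ) * 2 ≤ N := by exact_mod_cast h3
      linarith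
    nlinarith [Real.pi_pos]
  have := Real.mul_abs_le_abs_sin hle
  rw [habs] at this
  rw [Real.norm_eq_abs, abs_mul, abs_two]
  have h5 : 2 / Real.pi * (Real.pi * (cabs m : ℝ) / N) = 2 * (cabs m : ℝ) / N := by
    field_simp
  rw [h5] at this
  have h6 : 4 * (cabs m : ℝ) / N = 2 * (2 * (cabs m : ℝ) / N) := by ring
  rw [h6]
  linarith

lemma geom_le' {N : ℕ} [NeZero N] (m : ZMod N) (hm : 0 < cabs m) (l : ℕ) :
    ‖∑ j ∈ range l, (ZMod.stdAddChar (-m) : ℂ) ^ j‖ ≤ N / (2 * cabs m) := by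
  have hN : (0 : ℝ) < N := by exact_mod_cast Nat.pos_of_ne_zero (NeZero.ne N)
  have hc : (0 : ℝ) < cabs m := by exact_mod_cast hm
  have h1 := char_sub_one m
  have hpos : 0 < ‖(ZMod.stdAddChar (-m) : ℂ) - 1‖ := lt_of_lt_of_le (by positivity) h1
  have hne : (ZMod.stdAddChar (-m) : ℂ) ≠ 1 := by
    intro h
    rw [h, sub_self, norm_zero] at hpos
    exact lt_irrefl _ hpos
  rw [geom_sum_eq hne, norm_div, div_le_iff₀ hpos]
  have h2 : ‖(ZMod.stdAddChar (-m) : ℂ) ^ l - 1‖ ≤ 2 := by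
    refine (norm_sub_le _ _).trans ?_
    rw [norm_pow, norm_char, one_pow, norm_one]; norm_num
  refine h2.trans ?_
  calc (2 : ℝ) = N / (2 * cabs m) * (4 * (cabs m : ℝ) / N) := by field_simp; norm_num
    _ ≤ _ := by gcongr

theorem stA1 : StA1 := by
  intro N _ w w' hw hw' c m
  have hN : (0 : ℝ) < N := by exact_mod_cast Nat.pos_of_ne_zero (NeZero.ne N)
  have hwp : (0 : ℝ) < w := by exact_mod_cast hw
  rw [hat_ker, norm_div, norm_mul, norm_mul, norm_char, one_mul, Complex.norm_natCast]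
  unfold beta
  split_ifs with h
  · rw [div_le_iff₀ hwp]
    have h1 := geom_le m w
    have h2 := geom_le m w'
    have h3 : (w' : ℝ) ≤ 3 * w := by exact_mod_cast hw'
    calc _ ≤ (w : ℝ) * w' := by gcongr
      _ ≤ 3 * (w : ℝ) * w := by nlinarith
  · have hc : 0 < cabs m := by
      rcases Nat.eq_zero_or_pos (cabs m) with h0 | h0
      · exfalso; apply h; rw [h0, zero_mul]; exact Nat.zero_le _
      · exact h0
    have hcr : (0 : ℝ) < cabs m := by exact_mod_cast hc
    have h1 := geom_le' m hc w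
    have h2 := geom_le' m hc w'
    calc _ ≤ ((N : ℝ) / (2 * cabs m)) * (N / (2 * cabs m)) / w := by gcongr
      _ = ((N : ℝ) ^ 2 / (w * (cabs m : ℝ) ^ 2)) / 4 := by field_simp; norm_num
      _ ≤ _ := by
        have : 0 ≤ (N : ℝ) ^ 2 / (w * (cabs m : ℝ) ^ 2) := by positivity
        linarith

/-- sums over `ZMod N` of functions of `cabs` -/
lemma sum_cabs {N : ℕ} [NeZero N] (f : ℕ → ℝ) (hf : ∀ k, 0 ≤ f k) :
    ∑ m : ZMod N, f (cabs m) ≤ 2 * ∑ k ∈ range (N / 2 + 1), f k := by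
  classical
  have h1 : ∑ m : ZMod N, f (cabs m) =
      ∑ k ∈ range (N / 2 + 1), ∑ m ∈ univ.filter (fun m : ZMod N => cabs m = k), f (cabs m) := by
    rw [Finset.sum_fiberwise_of_maps_to]
    intro m _
    rw [mem_range]
    exact Nat.lt_succ_of_le (cabs_le m)
  rw [h1, Finset.mul_sum]
  refine Finset.sum_le_sum fun k _ => ?_
  have h2 : ∑ m ∈ univ.filter (fun m : ZMod N => cabs m = k), f (cabs m) =
      (univ.filter (fun m : ZMod N => cabs m = k)).card * f k := by
    rw [← nsmul_eq_mul, ← Finset.sum_const]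
    refine Finset.sum_congr rfl fun m hm => ?_
    rw [(mem_filter.mp hm).2]
  rw [h2]
  refine mul_le_mul_of_nonneg_right ?_ (hf k)
  have h3 : univ.filter (fun m : ZMod N => cabs m = k) ⊆ {(k : ZMod N), -(k : ZMod N)} := by
    intro m hm
    have hk : cabs m = k := (mem_filter.mp hm).2
    rw [mem_insert, mem_singleton]
    unfold cabs at hk
    rcases Int.natAbs_eq m.valMinAbs with h | h
    · left
      rw [← ZMod.coe_valMinAbs m, h, hk]; simp
    · right
      rw [← ZMod.coe_valMinAbs m, h, hk]; simp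
  have h4 : (univ.filter (fun m : ZMod N => cabs m = k)).card ≤ 2 :=
    (card_le_card h3).trans (card_le_two)
  exact_mod_cast h4

/-- telescoping bound -/
lemma sum_tel (f a : ℕ → ℝ) (A : ℝ) (hA : 0 ≤ A) (K n : ℕ)
    (h1 : ∀ k, k ≤ K → f k ≤ A) (h2 : ∀ k, K < k → f k ≤ a (k - 1) - a k)
    (ha : ∀ k, 0 ≤ a k) :
    ∑ k ∈ range n, f k ≤ A * (K + 1) + a K := by
  have key : ∀ n, ∑ k ∈ range n, f k ≤
      if n ≤ K + 1 then A * n else A * (K + 1) + a K - a (n - 1) := by
    intro n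
    induction n with
    | zero => simp
    | succ n ih =>
      rw [sum_range_succ]
      by_cases hn : n + 1 ≤ K + 1
      · have hn' : n ≤ K + 1 := by omega
        rw [if_pos hn'] at ih
        rw [if_pos hn]
        have := h1 n (by omega)
        push_cast
        linarith
      · rw [if_neg hn]
        have h3 := h2 n (by omega)
        by_cases hn' : n ≤ K + 1
        · have : n = K + 1 := by omega
          subst this
          rw [if_pos le_rfl] at ih
          push_cast at ih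
          simp only [Nat.add_sub_cancel] at h3 ⊢
          linarith
        · rw [if_neg hn'] at ih
          simp only [Nat.add_sub_cancel]
          linarith
  refine (key n).trans ?_
  split_ifs with h
  · have h5 : (n : ℝ) ≤ K + 1 := by exact_mod_cast h
    have := mul_le_mul_of_nonneg_left h5 hA
    have := ha K
    linarith
  · have := ha (n - 1)
    linarith

lemma div_facts {N w : ℕ} (hw : 1 ≤ w) (hwN : w ≤ N) :
    1 ≤ N / w ∧ (w : ℝ) * ((N / w : ℕ) : ℝ) ≤ N ∧ (N : ℝ) ≤ 2 * w * ((N / w : ℕ) : ℝ) := by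
  have h1 : 1 ≤ N / w := (Nat.one_le_div_iff (by omega)).mpr hwN
  refine ⟨h1, ?_, ?_⟩
  · exact_mod_cast Nat.mul_div_le N w
  · have h2 : N < w * (N / w) + w := Nat.lt_mul_div_succ N (by omega)
    have h3 : w * 1 ≤ w * (N / w) := Nat.mul_le_mul_left w h1
    have h4 : N ≤ 2 * w * (N / w) := by nlinarith
    exact_mod_cast h4

theorem stA2 : StA2 := by
  intro N _ w hw hwN
  have hN : (0 : ℝ) < N := by exact_mod_cast Nat.pos_of_ne_zero (NeZero.ne N)
  have hwp : (0 : ℝ) < w := by exact_mod_cast hw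
  obtain ⟨hK1, hK2, hK3⟩ := div_facts hw hwN
  set K := N / w with hK
  have hKp : (0 : ℝ) < K := by exact_mod_cast hK1
  set f : ℕ → ℝ := fun k => if k * w ≤ N then 3 * (w : ℝ) else (N : ℝ) ^ 2 / ((w : ℝ) * (k : ℝ) ^ 2)
    with hf
  have hf0 : ∀ k, 0 ≤ f k := by
    intro k; simp only [hf]; split_ifs <;> positivity
  have h1 : ∑ m : ZMod N, beta N w m ≤ 2 * ∑ k ∈ range (N / 2 + 1), f k := sum_cabs f hf0
  refine h1.trans ?_
  have h2 := sum_tel f (fun k => (N : ℝ) ^ 2 / (w * k)) (3 * w) (by positivity) K (N / 2 + 1)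
    (by
      intro k hk
      have : k * w ≤ N := by
        calc k * w ≤ K * w := Nat.mul_le_mul_right w hk
          _ ≤ N := Nat.div_mul_le_self N w
      simp only [hf, if_pos this, le_refl])
    (by
      intro k hk
      have hk' : ¬ (k * w ≤ N) := by
        intro h
        have : k ≤ K := (Nat.le_div_iff_mul_le (by omega)).mpr h
        omega
      simp only [hf, if_neg hk']
      have hk1 : (1 : ℝ) < k := by
        have : 1 < k := by omega
        exact_mod_cast this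
      have hcast : ((k - 1 : ℕ) : ℝ) = (k : ℝ) - 1 := by
        rw [Nat.cast_sub (by omega)]; simp
      rw [hcast]
      have hk0 : (0 : ℝ) < (k : ℝ) - 1 := by linarith
      have hkp : (0 : ℝ) < k := by linarith
      have e : (N : ℝ) ^ 2 / (w * ((k : ℝ) - 1)) - (N : ℝ) ^ 2 / (w * k) =
          (N : ℝ) ^ 2 / (w * (((k : ℝ) - 1) * k)) := by
        field_simp
        ring
      rw [e]
      have : ((k : ℝ) - 1) * k ≤ (k : ℝ) ^ 2 := by nlinarith
      gcongr)
    (by intro k; positivity)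
  have h3 : (N : ℝ) ^ 2 / (w * K) ≤ 2 * N := by
    rw [div_le_iff₀ (by positivity)]
    nlinarith
  have h4 : 3 * (w : ℝ) * (K + 1) ≤ 6 * N := by
    have : (w : ℝ) ≤ N := by exact_mod_cast hwN
    nlinarith
  linarith

theorem stA3 : StA3 := by
  intro N _ w hw hwN
  have hN : (0 : ℝ) < N := by exact_mod_cast Nat.pos_of_ne_zero (NeZero.ne N)
  have hwp : (0 : ℝ) < w := by exact_mod_cast hw
  have hwN' : (w : ℝ) ≤ N := by exact_mod_cast hwN
  obtain ⟨hK1, hK2, hK3⟩ := div_facts hw hwN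
  set K := N / w with hK
  have hKp : (0 : ℝ) < K := by exact_mod_cast hK1
  set f : ℕ → ℝ := fun k => (if k * w ≤ N then 3 * (w : ℝ) else
    (N : ℝ) ^ 2 / ((w : ℝ) * (k : ℝ) ^ 2)) * √((max 1 k : ℕ) * (w : ℝ) / N)
    with hf
  have hf0 : ∀ k, 0 ≤ f k := by
    intro k; simp only [hf]; split_ifs <;> positivity
  have h1 : ∑ m : ZMod N, beta N w m * √((max 1 (cabs m) : ℕ) * (w : ℝ) / N) ≤
      2 * ∑ k ∈ range (N / 2 + 1), f k := sum_cabs f hf0
  refine h1.trans ?_
  have h2 := sum_tel f (fun k => 2 * ((N : ℝ) ^ 2 / w * √((w : ℝ) / N)) / √k) (3 * w)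
    (by positivity) K (N / 2 + 1)
    (by
      intro k hk
      have h5 : k * w ≤ N := by
        calc k * w ≤ K * w := Nat.mul_le_mul_right w hk
          _ ≤ N := Nat.div_mul_le_self N w
      simp only [hf, if_pos h5]
      have h6 : √((max 1 k : ℕ) * (w : ℝ) / N) ≤ 1 := by
        rw [Real.sqrt_le_one, div_le_one hN]
        have : max 1 k * w ≤ N := by
          rcases le_total 1 k with h | h
          · rw [max_eq_right h]; exact h5
          · rw [max_eq_left h, one_mul]; exact hwN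
        exact_mod_cast this
      calc _ ≤ 3 * (w : ℝ) * 1 := by gcongr
        _ = _ := by ring)
    (by
      intro k hk
      have hk' : ¬ (k * w ≤ N) := by
        intro h
        have : k ≤ K := (Nat.le_div_iff_mul_le (by omega)).mpr h
        omega
      simp only [hf, if_neg hk']
      have hk1' : 1 < k := by omega
      have hk1 : (1 : ℝ) < k := by exact_mod_cast hk1'
      have hcast : ((k - 1 : ℕ) : ℝ) = (k : ℝ) - 1 := by
        rw [Nat.cast_sub (by omega)]; simp
      rw [hcast, max_eq_right (by omega : 1 ≤ k)]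
      have hk0 : (0 : ℝ) < (k : ℝ) - 1 := by linarith
      have hkp : (0 : ℝ) < k := by linarith
      have e1 : √((k : ℝ) * (w : ℝ) / N) = √k * √((w : ℝ) / N) := by
        rw [mul_div_assoc, Real.sqrt_mul hkp.le]
      rw [e1]
      set s := √(k : ℝ) with hs
      set r := √((k : ℝ) - 1) with hr
      have hs2 : s ^ 2 = k := Real.sq_sqrt hkp.le
      have hr2 : r ^ 2 = k - 1 := Real.sq_sqrt hk0.le
      have hsp : 0 < s := Real.sqrt_pos.mpr hkp
      have hrp : 0 < r := Real.sqrt_pos.mpr hk0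
      have hrs : r ≤ s := Real.sqrt_le_sqrt (by linarith)
      have key : s / (k : ℝ) ^ 2 ≤ 2 / r - 2 / s := by
        rw [← hs2]
        have e2 : s / (s ^ 2) ^ 2 = 1 / s ^ 3 := by field_simp
        have e3 : 2 / r - 2 / s = 2 * (s - r) / (r * s) := by field_simp
        have e4 : s - r = 1 / (s + r) := by
          rw [eq_div_iff (by positivity)]
          nlinarith
        rw [e2, e3, e4, mul_one_div, div_div, div_le_div_iff₀ (by positivity) (by positivity)]
        have : (s + r) * (r * s) ≤ 2 * s ^ 3 := by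
          have h7 : (s + r) ≤ 2 * s := by linarith
          have h8 : r * s ≤ s ^ 2 := by nlinarith
          calc (s + r) * (r * s) ≤ (2 * s) * s ^ 2 := by gcongr
            _ = _ := by ring
        linarith
      have hpos : 0 ≤ (N : ℝ) ^ 2 / w * √((w : ℝ) / N) := by positivity
      calc (N : ℝ) ^ 2 / ((w : ℝ) * (k : ℝ) ^ 2) * (s * √((w : ℝ) / N))
          = ((N : ℝ) ^ 2 / w * √((w : ℝ) / N)) * (s / (k : ℝ) ^ 2) := by
            field_simp
        _ ≤ ((N : ℝ) ^ 2 / w * √((w : ℝ) / N)) * (2 / r - 2 / s) := by gcongr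
        _ = _ := by ring)
    (by intro k; positivity)
  have h3 : 2 * ((N : ℝ) ^ 2 / w * √((w : ℝ) / N)) / √(K : ℝ) ≤ 3 * N := by
    rw [div_le_iff₀ (Real.sqrt_pos.mpr hKp)]
    have hsq : (2 * ((N : ℝ) ^ 2 / w * √((w : ℝ) / N))) ^ 2 ≤ (3 * N * √(K : ℝ)) ^ 2 := by
      have e1 : (2 * ((N : ℝ) ^ 2 / w * √((w : ℝ) / N))) ^ 2 = 4 * (N : ℝ) ^ 3 / w := by
        rw [mul_pow, mul_pow, Real.sq_sqrt (by positivity)]
        field_simp
        norm_num
      have e2 : (3 * N * √(K : ℝ)) ^ 2 = 9 * (N : ℝ) ^ 2 * K := by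
        rw [mul_pow, Real.sq_sqrt hKp.le]; ring
      rw [e1, e2, div_le_iff₀ hwp]
      have : (N : ℝ) ^ 2 * N ≤ (N : ℝ) ^ 2 * (2 * w * K) := by gcongr
      have h9 : 0 ≤ (N : ℝ) ^ 2 * (w * K) := by positivity
      nlinarith
    exact le_of_sq_le_sq hsq (by positivity)
  have h4 : 3 * (w : ℝ) * (K + 1) ≤ 6 * N := by
    nlinarith
  linarith

end Pool.Agent.L0h76.H
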