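import Pool.Agent.L0h76.H.Defs

/-!
# Module B: finite Fourier count, averaging over the lattices
-/

set_option autoImplicit false

namespace Pool.Agent.L0h76.H

open Finset

lemma char_sum {N : ℕ} [NeZero N] (a : ZMod N) :
    ∑ x : ZMod N, (ZMod.stdAddChar (a * x) : ℂ) = if a = 0 then (N : ℂ) else 0 := by
  have := AddChar.sum_mulShift a (ZMod.isPrimitive_stdAddChar N)
  rw [ZMod.card] at this
  have h2 : ∑ x : ZMod N, (ZMod.stdAddChar (a * x) : ℂ) = ∑ x : ZMod N, (ZMod.stdAddChar (x * a) : ℂ) :=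
    Finset.sum_congr rfl fun x _ => by rw [mul_comm]
  rw [h2, this]
  split_ifs <;> simp

lemma map_sum_prod {N : ℕ} [NeZero N] {ι : Type*} (s : Finset ι) (f : ι → ZMod N) :
    (ZMod.stdAddChar (∑ i ∈ s, f i) : ℂ) = ∏ i ∈ s, ZMod.stdAddChar (f i) := by
  classical
  induction s using Finset.induction_on with
  | empty => simp
  | insert a s ha ih => rw [sum_insert ha, prod_insert ha, AddChar.map_add_eq_mul, ih]

lemma inv_four {N : ℕ} [NeZero N] (F : ZMod N → ℝ) (x : ZMod N) :
    (F x : ℂ) = (∑ m : ZMod N, hat F m * ZMod.stdAddChar (m * x)) / N := by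
  have hN : (N : ℂ) ≠ 0 := by exact_mod_cast NeZero.ne N
  unfold hat
  rw [eq_div_iff hN]
  simp_rw [Finset.sum_mul]
  rw [Finset.sum_comm]
  have h1 : ∀ y : ZMod N, ∑ m : ZMod N, (F y : ℂ) * ZMod.stdAddChar (-(m * y)) *
      ZMod.stdAddChar (m * x) = if y = x then (F y : ℂ) * N else 0 := by
    intro y
    have h2 : ∀ m : ZMod N, (F y : ℂ) * ZMod.stdAddChar (-(m * y)) *
      ZMod.stdAddChar (m * x) = (F y : ℂ) * ZMod.stdAddChar ((x - y) * m) := by
      intro m
      rw [mul_assoc, ← AddChar.map_add_eq_mul]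
      congr 2
      ring
    simp_rw [h2]
    rw [← Finset.mul_sum, char_sum]
    by_cases h : y = x
    · rw [if_pos (sub_eq_zero.mpr h.symm), if_pos h]
    · rw [if_neg h, if_neg (fun hh => h (sub_eq_zero.mp hh).symm), mul_zero]
  simp_rw [h1]
  rw [Finset.sum_ite_eq' univ]
  simp

open Classical in
lemma count_four {N d : ℕ} [NeZero N] (F : Fin d → ZMod N → ℝ) (G : Fin d → ZMod N) :
    ((∑ k : ZMod N, ∏ i, F i (G i * k) : ℝ) : ℂ) =
      (N : ℂ) / (N : ℂ) ^ d * ∑ h ∈ univ.filter (fun h : Fin d → ZMod N => ∑ i, h i * G i = 0),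
        ∏ i, hat (F i) (h i) := by
  have hN : (N : ℂ) ≠ 0 := by exact_mod_cast NeZero.ne N
  push_cast
  have h1 : ∀ k : ZMod N, ∏ i, (F i (G i * k) : ℂ) =
      (∑ h : Fin d → ZMod N, (∏ i, hat (F i) (h i)) * ZMod.stdAddChar ((∑ i, h i * G i) * k)) /
        (N : ℂ) ^ d := by
    intro k
    have h2 : ∏ i, (F i (G i * k) : ℂ) =
        ∏ i, ((∑ m : ZMod N, hat (F i) m * ZMod.stdAddChar (m * (G i * k))) / (N : ℂ)) :=
      Finset.prod_congr rfl fun i _ => inv_four (F i) (G i * k)
    rw [h2, Finset.prod_div_distrib, Finset.prod_const, card_univ, Fintype.card_fin]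
    congr 1
    rw [Finset.prod_univ_sum, Fintype.piFinset_univ]
    refine Finset.sum_congr rfl fun h _ => ?_
    rw [Finset.prod_mul_distrib, ← map_sum_prod, Finset.sum_mul]
    congr 2
    refine Finset.sum_congr rfl fun i _ => ?_
    ring
  simp_rw [h1]
  rw [← Finset.sum_div, Finset.sum_comm]
  simp_rw [← Finset.mul_sum, char_sum]
  rw [Finset.sum_filter]
  rw [Finset.mul_sum, Finset.sum_div]
  refine Finset.sum_congr rfl fun h _ => ?_
  by_cases hh : ∑ i, h i * G i = 0
  · rw [if_pos hh, if_pos hh]; field_simp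
  · rw [if_neg hh, if_neg hh]; simp

theorem stB1 : StB1 := by
  classical
  intro N _ d F b G hF
  have hNr : (0 : ℝ) < N := by exact_mod_cast Nat.pos_of_ne_zero (NeZero.ne N)
  have hN : (N : ℂ) ≠ 0 := by exact_mod_cast NeZero.ne N
  have hb : ∀ i m, 0 ≤ b i m := fun i m => (norm_nonneg _).trans (hF i m)
  have h1 := count_four F G
  have hsplit : univ.filter (fun h : Fin d → ZMod N => ∑ i, h i * G i = 0) =
      insert 0 (univ.filter (fun h : Fin d → ZMod N => Rel G h)) := by
    ext h
    simp only [mem_filter, mem_univ, true_and, mem_insert, Rel]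
    constructor
    · intro hh
      by_cases h0 : h = 0
      · left; exact h0
      · right; exact ⟨h0, hh⟩
    · rintro (hh | hh)
      · rw [hh]; simp
      · exact hh.2
  have hnot : (0 : Fin d → ZMod N) ∉ univ.filter (fun h : Fin d → ZMod N => Rel G h) := by
    simp [Rel]
  rw [hsplit, Finset.sum_insert hnot] at h1
  have h0 : (N : ℂ) / (N : ℂ) ^ d * ∏ i, hat (F i) ((0 : Fin d → ZMod N) i) =
      ((N * ∏ i, ((∑ x, F i x) / N) : ℝ) : ℂ) := by
    have : ∀ i, hat (F i) ((0 : Fin d → ZMod N) i) = ((∑ x, F i x : ℝ) : ℂ) := by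
      intro i
      unfold hat
      simp
    simp_rw [this]
    rw [Finset.prod_div_distrib, Finset.prod_const, card_univ, Fintype.card_fin]
    push_cast
    ring
  rw [mul_add, h0] at h1
  have h2 : ((∑ k : ZMod N, ∏ i, F i (G i * k) - N * ∏ i, ((∑ x, F i x) / N) : ℝ) : ℂ) =
      (N : ℂ) / (N : ℂ) ^ d * ∑ h ∈ univ.filter (fun h : Fin d → ZMod N => Rel G h),
        ∏ i, hat (F i) (h i) := by
    rw [Complex.ofReal_sub, h1]
    ring
  rw [← Real.norm_eq_abs, ← Complex.norm_real, h2, norm_mul, norm_div, norm_pow, Complex.norm_natCast]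
  refine mul_le_mul_of_nonneg_left ?_ (by positivity)
  unfold relSum
  refine (norm_sum_le _ _).trans ?_
  refine Finset.sum_le_sum fun h _ => ?_
  rw [norm_prod]
  exact Finset.prod_le_prod (fun i _ => norm_nonneg _) (fun i _ => hF i (h i))

open Classical in
lemma card_rel {N t : ℕ} [Fact N.Prime] (h : Fin (t + 1) → ZMod N) :
    N * (univ.filter (fun g : Fin t → ZMod N => Rel (ext g) h)).card ≤ N ^ t := by
  by_cases hex : ∃ i : Fin t, h i.succ ≠ 0
  · obtain ⟨i, hi⟩ := hex
    have hcard : (univ : Finset (Fin t → ZMod N)).card = N ^ t := by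
      rw [card_univ, Fintype.card_fun, ZMod.card, Fintype.card_fin]
    have hprod : ((univ : Finset (ZMod N)) ×ˢ
        (univ.filter (fun g : Fin t → ZMod N => Rel (ext g) h))).card =
        N * (univ.filter (fun g : Fin t → ZMod N => Rel (ext g) h)).card := by
      rw [card_product, card_univ, ZMod.card]
    rw [← hprod, ← hcard]
    refine Finset.card_le_card_of_injOn (fun p => p.2 + (Pi.single i p.1 : Fin t → ZMod N)) (fun p _ => mem_coe.mpr (mem_univ _)) ?_
    rintro ⟨a, g⟩ hg ⟨a', g'⟩ hg' heq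
    simp only [coe_product, coe_filter, mem_univ, true_and, Set.mem_prod, Set.mem_ofPred_eq,
      coe_univ, Set.mem_univ] at hg hg'
    have e : ∀ g : Fin t → ZMod N, ∑ j, h j * ext g j = h 0 + ∑ j : Fin t, h j.succ * g j := by
      intro g
      rw [Fin.sum_univ_succ]
      simp [ext]
    have s1 : h 0 + ∑ j : Fin t, h j.succ * g j = 0 := by rw [← e]; exact hg.2
    have s2 : h 0 + ∑ j : Fin t, h j.succ * g' j = 0 := by rw [← e]; exact hg'.2
    have heq' : g + (Pi.single i a : Fin t → ZMod N) = g' + (Pi.single i a' : Fin t → ZMod N) := heq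
    have hsum : ∀ (g : Fin t → ZMod N) (a : ZMod N),
        ∑ j : Fin t, h j.succ * (g + (Pi.single i a : Fin t → ZMod N)) j =
        ∑ j : Fin t, h j.succ * g j + h i.succ * a := by
      intro g a
      simp only [Pi.add_apply, mul_add, Finset.sum_add_distrib]
      congr 1
      rw [Finset.sum_eq_single i]
      · simp
      · intro j _ hj
        rw [Pi.single_eq_of_ne hj, mul_zero]
      · intro hh; exact absurd (mem_univ i) hh
    have s3 : h i.succ * a = h i.succ * a' := by
      have q1 := hsum g a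
      have q2 := hsum g' a'
      rw [heq'] at q1
      rw [q1] at q2
      have : ∑ j : Fin t, h j.succ * g j = ∑ j : Fin t, h j.succ * g' j := by
        have := s1.trans s2.symm
        exact add_left_cancel this
      rw [this] at q2
      exact add_left_cancel q2
    have s4 : a = a' := mul_left_cancel₀ hi s3
    subst s4
    have s5 : g = g' := add_right_cancel heq'
    rw [s5]
  · push Not at hex
    have : univ.filter (fun g : Fin t → ZMod N => Rel (ext g) h) = ∅ := by
      rw [Finset.filter_eq_empty_iff]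
      intro g _ hrel
      obtain ⟨h0, hs⟩ := hrel
      rw [Fin.sum_univ_succ] at hs
      simp only [ext, Fin.cons_zero, mul_one, Fin.cons_succ, hex, zero_mul, sum_const_zero,
        add_zero] at hs
      apply h0
      funext j
      refine Fin.cases hs (fun i => hex i) j
    rw [this]
    simp

theorem stB2 : StB2 := by
  classical
  intro N t _ Φ hΦ
  unfold relSum
  simp_rw [Finset.sum_filter]
  rw [Finset.sum_comm, Finset.mul_sum, Finset.mul_sum]
  refine Finset.sum_le_sum fun h _ => ?_
  rw [← Finset.sum_filter, Finset.sum_const, nsmul_eq_mul, ← mul_assoc]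
  refine mul_le_mul_of_nonneg_right ?_ (hΦ h)
  exact_mod_cast card_rel h

end Pool.Agent.L0h76.H
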