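import Pool.Agent.L0h76.H.A

/-!
# Module B3: the sum of `1 / max 1 |m|`
-/

set_option autoImplicit false

namespace Pool.Agent.L0h76.H

open Finset

lemma sum_inv_max (n : ℕ) :
    ∑ k ∈ range (n + 1), (1 / ((max 1 k : ℕ) : ℝ)) = 1 + (harmonic n : ℝ) := by
  rw [Finset.sum_range_succ']
  simp only [max_eq_left (Nat.zero_le 1), Nat.cast_one, ne_eq, one_ne_zero, not_false_eq_true,
    div_self]
  rw [add_comm]
  congr 1
  unfold harmonic
  push_cast
  refine Finset.sum_congr rfl fun k _ => ?_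
  rw [max_eq_right (by have := Nat.cast_nonneg (α := ℝ) k; linarith)]
  rw [one_div]

theorem stB3 : StB3 := by
  intro N _
  have h1 : ∑ m : ZMod N, (1 / ((max 1 (cabs m) : ℕ) : ℝ)) ≤
      2 * ∑ k ∈ range (N / 2 + 1), (1 / ((max 1 k : ℕ) : ℝ)) :=
    sum_cabs (fun k => 1 / ((max 1 k : ℕ) : ℝ)) (fun k => by positivity)
  refine h1.trans ?_
  rw [sum_inv_max]
  have hN : 0 < N := Nat.pos_of_ne_zero (NeZero.ne N)
  rcases Nat.lt_or_ge N 2 with h | h
  · have : N = 1 := by omega
    subst this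
    norm_num
  · have h2 : (harmonic (N / 2) : ℝ) ≤ 1 + Real.log ((N / 2 : ℕ) : ℝ) := by
      exact_mod_cast harmonic_le_one_add_log (N / 2)
    have h3 : Real.log ((N / 2 : ℕ) : ℝ) ≤ Real.log N - Real.log 2 := by
      rw [← Real.log_div (by positivity) (by norm_num)]
      apply Real.log_le_log
      · have : 0 < N / 2 := by omega
        exact_mod_cast this
      · exact Nat.cast_div_le
    have h4 := Real.log_two_gt_d9
    linarith

end Pool.Agent.L0h76.H
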