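import Pool.Agent.L0h76.H.Defs

/-!
# Tent decomposition of intervals of `ZMod N`
-/

set_option autoImplicit false

namespace Pool.Agent.L0h76.H

open Finset

variable {N : ℕ}

theorem ind_nonneg (c : ZMod N) (l : ℕ) (x : ZMod N) : 0 ≤ ind c l x := by
  unfold ind
  exact sum_nonneg fun j _ => by split_ifs <;> norm_num

theorem ind_add (c : ZMod N) (a b : ℕ) (x : ZMod N) :
    ind c (a + b) x = ind c a x + ind (c + (a : ZMod N)) b x := by
  unfold ind
  rw [sum_range_add]
  congr 1
  apply sum_congr rfl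
  intro j _
  congr 1
  push_cast
  rw [add_assoc]

theorem ind_zero (c x : ZMod N) : ind c 0 x = 0 := by simp [ind]

/-- sub-intervals -/
theorem ind_mono (c d : ZMod N) (n a m : ℕ) (x : ZMod N) (hd : d = c + (a : ZMod N))
    (h : a + n ≤ m) : ind d n x ≤ ind c m x := by
  obtain ⟨b, rfl⟩ := Nat.exists_eq_add_of_le h
  rw [ind_add, ind_add, hd]
  have h1 := ind_nonneg c a x
  have h2 := ind_nonneg (c + ((a + n : ℕ) : ZMod N)) b x
  linarith

theorem ker_nonneg (w w' : ℕ) (c x : ZMod N) : 0 ≤ ker w w' c x := by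
  unfold ker
  exact div_nonneg (sum_nonneg fun i _ => ind_nonneg _ _ _) (Nat.cast_nonneg _)

theorem sum_ind [NeZero N] (c : ZMod N) (l : ℕ) : ∑ x, ind c l x = l := by
  unfold ind
  rw [sum_comm]
  simp

theorem sum_ker [NeZero N] (w w' : ℕ) (hw : 1 ≤ w) (c : ZMod N) : ∑ x, ker w w' c x = w' := by
  unfold ker
  rw [← sum_div, sum_comm]
  simp only [sum_ind]
  rw [sum_const, card_range, nsmul_eq_mul]
  have : (w : ℝ) ≠ 0 := by positivity
  field_simp

theorem ker_one (l : ℕ) (c x : ZMod N) : ker 1 l c x = ind c l x := by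
  simp [ker]

/-- one step of the decomposition -/
theorem step (w l : ℕ) (hw : 1 ≤ w) (h : 2 * (2 * w) ≤ l + 1) (c x : ZMod N) :
    ker w (l - w + 1) c x = ker (2 * w) (l - 2 * w + 1) c x +
      (1 / 2 * ker w w c x + 1 / 2 * ker w w (c + ((l - 2 * w + 1 : ℕ) : ZMod N)) x) := by
  obtain ⟨n, hn⟩ : ∃ n, n = l - 2 * w + 1 := ⟨_, rfl⟩
  have e1 : l - w + 1 = n + w := by omega
  rw [← hn, e1]
  unfold ker
  have hw0 : (w : ℝ) ≠ 0 := by positivity
  have key : ∀ i : ℕ, 2 * ind (c + (i : ZMod N)) (n + w) x =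
      (ind (c + (i : ZMod N)) n x + ind (c + ((w + i : ℕ) : ZMod N)) n x) +
      (ind (c + (i : ZMod N)) w x + ind (c + (n : ZMod N) + (i : ZMod N)) w x) := by
    intro i
    have h1 := ind_add (c + (i : ZMod N)) n w x
    have h2 := ind_add (c + (i : ZMod N)) w n x
    rw [add_comm w n] at h2
    have e2 : c + (i : ZMod N) + (n : ZMod N) = c + (n : ZMod N) + (i : ZMod N) := by ring
    have e3 : c + (i : ZMod N) + (w : ZMod N) = c + ((w + i : ℕ) : ZMod N) := by push_cast; ring
    rw [e2] at h1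
    rw [e3] at h2
    linarith
  have hs : 2 * ∑ i ∈ range w, ind (c + (i : ZMod N)) (n + w) x =
      ∑ i ∈ range (2 * w), ind (c + (i : ZMod N)) n x +
      (∑ i ∈ range w, ind (c + (i : ZMod N)) w x +
        ∑ i ∈ range w, ind (c + (n : ZMod N) + (i : ZMod N)) w x) := by
    rw [mul_sum, sum_congr rfl (fun i _ => key i), sum_add_distrib, sum_add_distrib,
      sum_add_distrib, two_mul w, sum_range_add]
  push_cast
  field_simp
  linarith

/-- `TT(2^a) = sum of tents of scale in [a, b) + TT(2^b)`. -/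
theorem tele (l : ℕ) (c : ZMod N) (b : ℕ) (hb : 2 ^ (b + 1) ≤ l + 1) (x : ZMod N) :
    ∀ a, a ≤ b → ker (2 ^ a) (l - 2 ^ a + 1) c x =
      ∑ j ∈ Ico a b, (1 / 2 * ker (2 ^ j) (2 ^ j) c x +
        1 / 2 * ker (2 ^ j) (2 ^ j) (c + ((l - 2 * 2 ^ j + 1 : ℕ) : ZMod N)) x) +
      ker (2 ^ b) (l - 2 ^ b + 1) c x := by
  intro a hab
  induction hab using Nat.decreasingInduction with
  | self => simp
  | of_succ k hk ih =>
    have h1 : 2 * (2 * 2 ^ k) ≤ l + 1 := by
      refine le_trans ?_ hb
      have : 2 ^ (k + 2) ≤ 2 ^ (b + 1) := Nat.pow_le_pow_right (by norm_num) (by omega)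
      calc 2 * (2 * 2 ^ k) = 2 ^ (k + 2) := by ring
        _ ≤ _ := this
    rw [step (2 ^ k) l Nat.one_le_two_pow h1 c x, Finset.sum_eq_sum_Ico_succ_bot hk]
    have e : 2 * 2 ^ k = 2 ^ (k + 1) := by ring
    rw [e, ih]
    ring

/-- covering a short interval -/
theorem cover (w n : ℕ) (hw : 1 ≤ w) (hn : n ≤ w) (d x : ZMod N) :
    ind d n x ≤ ker w (2 * w) (d - ((w - 1 : ℕ) : ZMod N)) x := by
  unfold ker
  have hw0 : (0 : ℝ) < w := by positivity
  rw [le_div_iff₀ hw0]
  have h : ∀ i ∈ range w, ind d n x ≤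
      ind (d - ((w - 1 : ℕ) : ZMod N) + (i : ZMod N)) (2 * w) x := by
    intro i hi
    have hi' : i < w := mem_range.1 hi
    apply ind_mono _ _ n (w - 1 - i) (2 * w) x
    · have : ((w - 1 : ℕ) : ZMod N) = ((w - 1 - i : ℕ) : ZMod N) + (i : ZMod N) := by
        rw [← Nat.cast_add]
        congr 1
        omega
      rw [this]
      ring
    · omega
  calc ind d n x * w = ∑ i ∈ range w, ind d n x := by rw [sum_const, card_range, nsmul_eq_mul]; ring
    _ ≤ _ := sum_le_sum h

/-- decomposition into kernels of scale `2 ^ a`, `a* ≤ a ≤ A`, up to a remainder at scale `a*`. -/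
theorem decompT (A : ℕ) (hA2 : N < 2 ^ (A + 1)) (as : ℕ)
    (c : ZMod N) (l : ℕ) (hl : l ≤ N) :
    ∃ (κ : ℕ → Fin 3 → ℝ) (w' : ℕ → Fin 3 → ℕ) (cc : ℕ → Fin 3 → ZMod N) (c1 c2 : ZMod N),
      (∀ a e, 0 ≤ κ a e ∧ κ a e ≤ 1) ∧ (∀ a e, w' a e ≤ 3 * 2 ^ a) ∧
      (∀ x, 0 ≤ ind c l x -
        ∑ a ∈ Ico as (A + 1), ∑ e, κ a e * ker (2 ^ a) (w' a e) (cc a e) x) ∧
      (∀ x, ind c l x - ∑ a ∈ Ico as (A + 1), ∑ e, κ a e * ker (2 ^ a) (w' a e) (cc a e) x ≤
        ker (2 ^ as) (2 * 2 ^ as) c1 x + ker (2 ^ as) (2 * 2 ^ as) c2 x) ∧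
      (as = 0 → ∀ x, ind c l x =
        ∑ a ∈ Ico as (A + 1), ∑ e, κ a e * ker (2 ^ a) (w' a e) (cc a e) x) := by
  classical
  have hw1 : 1 ≤ 2 ^ as := Nat.one_le_two_pow
  by_cases hcase : 2 * 2 ^ as ≤ l + 1
  · -- proper scale
    set b := Nat.log 2 (l + 1) - 1 with hb
    have hl1 : 2 ≤ l + 1 := by omega
    have hlog : 1 ≤ Nat.log 2 (l + 1) := Nat.log_pos (by norm_num) hl1
    have hbb : b + 1 = Nat.log 2 (l + 1) := by omega
    have hb1 : 2 ^ (b + 1) ≤ l + 1 := by
      rw [hbb]
      exact Nat.pow_log_le_self 2 (by omega)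
    have hb2 : l + 1 < 2 ^ (b + 2) := by
      have := Nat.lt_pow_succ_log_self (b := 2) (by norm_num) (l + 1)
      rw [← hbb] at this
      exact this
    have hasb : as ≤ b := by
      have h1 : 2 ^ (as + 1) < 2 ^ (b + 2) := by
        calc 2 ^ (as + 1) = 2 * 2 ^ as := by ring
          _ ≤ l + 1 := hcase
          _ < _ := hb2
      have := (Nat.pow_lt_pow_iff_right (by norm_num : 1 < 2)).1 h1
      omega
    have hbA : b ≤ A := by
      have h1 : 2 ^ (b + 1) < 2 ^ (A + 2) := by
        have : 2 ^ (A + 2) = 2 * 2 ^ (A + 1) := by ring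
        omega
      have := (Nat.pow_lt_pow_iff_right (by norm_num : 1 < 2)).1 h1
      omega
    refine ⟨fun a e => if a < b then (if e = 2 then 0 else 1 / 2) else if a = b then
        (if e = 2 then 1 else 0) else 0,
      fun a e => if e = 2 then (if a = b then l - 2 ^ b + 1 else 0) else 2 ^ a,
      fun a e => if e = 1 then c + ((l - 2 * 2 ^ a + 1 : ℕ) : ZMod N) else c,
      c - ((2 ^ as - 1 : ℕ) : ZMod N),
      c + ((l - 2 ^ as + 1 : ℕ) : ZMod N) - ((2 ^ as - 1 : ℕ) : ZMod N), ?_, ?_, ?_⟩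
    · intro a e
      dsimp only
      split_ifs <;> norm_num
    · intro a e
      dsimp only
      split_ifs with h1 h2
      · subst h2
        have : 2 ^ (b + 2) = 4 * 2 ^ b := by ring
        omega
      · omega
      · have := Nat.one_le_two_pow (n := a)
        omega
    · have hT : ∀ x, ∑ a ∈ Ico as (A + 1), ∑ e : Fin 3,
          (if a < b then (if e = 2 then (0:ℝ) else 1 / 2) else if a = b then
            (if e = 2 then 1 else 0) else 0) *
          ker (2 ^ a) (if e = 2 then (if a = b then l - 2 ^ b + 1 else 0) else 2 ^ a)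
            (if e = 1 then c + ((l - 2 * 2 ^ a + 1 : ℕ) : ZMod N) else c) x =
          ker (2 ^ as) (l - 2 ^ as + 1) c x := by
        intro x
        rw [tele l c b hb1 x as hasb]
        rw [← Finset.sum_Ico_consecutive _ hasb (by omega : b ≤ A + 1),
          Finset.sum_eq_sum_Ico_succ_bot (by omega : b < A + 1)]
        congr 1
        · apply sum_congr rfl
          intro a ha
          have ha' : a < b := (mem_Ico.1 ha).2
          rw [Fin.sum_univ_three]
          simp [ha']
        · rw [sum_eq_zero (s := Ico (b + 1) (A + 1))]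
          · rw [Fin.sum_univ_three]
            simp
          · intro a ha
            have h1 : ¬ a < b := by have := (mem_Ico.1 ha).1; omega
            have h2 : ¬ a = b := by have := (mem_Ico.1 ha).1; omega
            simp [h1, h2]
      have hw0 : (0 : ℝ) < ((2 ^ as : ℕ) : ℝ) := by positivity
      refine ⟨?_, ?_, ?_⟩
      · intro x
        rw [hT x, sub_nonneg]
        unfold ker
        rw [div_le_iff₀ hw0]
        calc _ ≤ ∑ i ∈ range (2 ^ as), ind c l x := by
              apply sum_le_sum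
              intro i hi
              have hi' := mem_range.1 hi
              apply ind_mono c _ _ i l x rfl
              omega
          _ = _ := by rw [sum_const, card_range, nsmul_eq_mul]; ring
      · intro x
        rw [hT x]
        have h1 : ind (c + ((2 ^ as - 1 : ℕ) : ZMod N)) (l + 2 - 2 * 2 ^ as) x ≤
            ker (2 ^ as) (l - 2 ^ as + 1) c x := by
          unfold ker
          rw [le_div_iff₀ hw0]
          calc _ = ∑ i ∈ range (2 ^ as), ind (c + ((2 ^ as - 1 : ℕ) : ZMod N))
                (l + 2 - 2 * 2 ^ as) x := by rw [sum_const, card_range, nsmul_eq_mul]; ring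
            _ ≤ _ := by
              apply sum_le_sum
              intro i hi
              have hi' := mem_range.1 hi
              apply ind_mono _ _ _ (2 ^ as - 1 - i) _ x
              · have : ((2 ^ as - 1 : ℕ) : ZMod N) =
                    ((2 ^ as - 1 - i : ℕ) : ZMod N) + (i : ZMod N) := by
                  rw [← Nat.cast_add]
                  congr 1
                  omega
                rw [this]
                ring
              · omega
        have h2 : ind c l x = ind c (2 ^ as - 1) x +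
            (ind (c + ((2 ^ as - 1 : ℕ) : ZMod N)) (l + 2 - 2 * 2 ^ as) x +
              ind (c + ((l - 2 ^ as + 1 : ℕ) : ZMod N)) (2 ^ as - 1) x) := by
          have e1 : l = (2 ^ as - 1) + ((l + 2 - 2 * 2 ^ as) + (2 ^ as - 1)) := by omega
          conv_lhs => rw [e1]
          rw [ind_add, ind_add]
          congr 3
          have e2 : l - 2 ^ as + 1 = (2 ^ as - 1) + (l + 2 - 2 * 2 ^ as) := by omega
          rw [e2]
          push_cast
          ring
        have h3 := cover (2 ^ as) (2 ^ as - 1) hw1 (by omega) c x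
        have h4 := cover (2 ^ as) (2 ^ as - 1) hw1 (by omega)
          (c + ((l - 2 ^ as + 1 : ℕ) : ZMod N)) x
        linarith
      · intro h0 x
        rw [hT x, h0]
        have h5 : 1 ≤ l := by omega
        have e : l - 2 ^ 0 + 1 = l := by omega
        rw [e, pow_zero, ker_one]
  · -- short interval
    have hl2 : l ≤ 2 * 2 ^ as - 2 := by omega
    refine ⟨fun _ _ => 0, fun _ _ => 0, fun _ _ => 0, c - ((2 ^ as - 1 : ℕ) : ZMod N),
      c + ((2 ^ as : ℕ) : ZMod N) - ((2 ^ as - 1 : ℕ) : ZMod N), ?_, ?_, ?_, ?_, ?_⟩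
    · intro a e
      norm_num
    · intro a e
      exact Nat.zero_le _
    · intro x
      simp only [zero_mul, sum_const_zero, sub_zero]
      exact ind_nonneg _ _ _
    · intro x
      simp only [zero_mul, sum_const_zero, sub_zero]
      have h3 := cover (2 ^ as) (2 ^ as) hw1 le_rfl c x
      have h4 := cover (2 ^ as) (2 ^ as) hw1 le_rfl (c + ((2 ^ as : ℕ) : ZMod N)) x
      have h5 := ind_mono c c l 0 (2 ^ as + 2 ^ as) x (by simp) (by omega)
      rw [ind_add] at h5
      linarith
    · intro h0 x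
      subst h0
      have : l = 0 := by omega
      subst this
      simp [ind_zero]

end Pool.Agent.L0h76.H
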