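import Pool.Agent.L0h76.H.C1

/-!
# The deterministic inequality
-/

set_option autoImplicit false

namespace Pool.Agent.L0h76.H

open Finset

/-- Fourier error at scale `a` -/
noncomputable def Ev {N t : ℕ} [NeZero N] (g : Fin t → ZMod N) (a : Fin (t + 1) → ℕ) : ℝ :=
  N / (N : ℝ) ^ (t + 1) * relSum (ext g) (fun h => ∏ i, beta N (2 ^ a i) (h i))

theorem beta_nonneg (N w : ℕ) (m : ZMod N) : 0 ≤ beta N w m := by
  unfold beta
  split_ifs <;> positivity

theorem relSum_nonneg {N d : ℕ} [NeZero N] (G : Fin d → ZMod N) (Φ : (Fin d → ZMod N) → ℝ)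
    (h : ∀ x, 0 ≤ Φ x) : 0 ≤ relSum G Φ := by
  unfold relSum
  exact sum_nonneg fun x _ => h x

theorem Ev_nonneg {N t : ℕ} [NeZero N] (g : Fin t → ZMod N) (a : Fin (t + 1) → ℕ) :
    0 ≤ Ev g a := by
  unfold Ev
  refine mul_nonneg (by positivity) (relSum_nonneg _ _ fun h => prod_nonneg fun i _ => beta_nonneg _ _ _)

open Classical in
/-- least admissible scale of the coordinate `0` -/
noncomputable def astar (N t A : ℕ) (a' : Fin t → ℕ) : ℕ :=
  if h : ∃ a, a ≤ A ∧ N ^ t ≤ 2 ^ (a + ∑ i, a' i) then Nat.find h else A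

theorem astar_le (N t A : ℕ) (a' : Fin t → ℕ) : astar N t A a' ≤ A := by
  classical
  unfold astar
  split_ifs with h
  · exact (Nat.find_spec h).1
  · exact le_rfl

theorem astar_vol (N t A : ℕ) (hA : 2 ^ A ≤ N) (a' : Fin t → ℕ) (ha : ∀ i, a' i ≤ A) :
    2 ^ (astar N t A a' + ∑ i, a' i) ≤ 2 * N ^ t := by
  classical
  unfold astar
  split_ifs with h
  · rcases Nat.eq_zero_or_pos (Nat.find h) with h0 | h0
    · rw [h0, zero_add]
      have h1 : ∑ i, a' i ≤ t * A := by
        calc ∑ i, a' i ≤ ∑ _i : Fin t, A := sum_le_sum fun i _ => ha i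
          _ = t * A := by simp
      calc 2 ^ (∑ i, a' i) ≤ 2 ^ (t * A) := Nat.pow_le_pow_right (by norm_num) h1
        _ = (2 ^ A) ^ t := by rw [mul_comm, pow_mul]
        _ ≤ N ^ t := Nat.pow_le_pow_left hA t
        _ ≤ 2 * N ^ t := by omega
    · have h1 := Nat.find_min h (m := Nat.find h - 1) (by omega)
      have h2 := (Nat.find_spec h).1
      push Not at h1
      have h3 := h1 (by omega)
      have h4 : 2 ^ (Nat.find h + ∑ i, a' i) = 2 * 2 ^ (Nat.find h - 1 + ∑ i, a' i) := by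
        rw [← pow_succ']
        congr 1
        omega
      omega
  · push Not at h
    have := h A le_rfl
    omega

variable {N t : ℕ} [NeZero N]

theorem one_kernel (hA1 : StA1) (hB1 : StB1) (g : Fin t → ZMod N) (a' : Fin t → ℕ)
    (w' : Fin t → ℕ) (hw' : ∀ i, w' i ≤ 3 * 2 ^ a' i) (cc : Fin t → ZMod N)
    (a w0 : ℕ) (hw0 : w0 ≤ 3 * 2 ^ a) (c0 : ZMod N) :
    |∑ k, ker (2 ^ a) w0 c0 k * ∏ i, ker (2 ^ a' i) (w' i) (cc i) (g i * k) -
      w0 * ∏ i, ((w' i : ℝ) / N)| ≤ Ev g (Fin.cons a a') := by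
  have hN : (N : ℝ) ≠ 0 := by
    have := NeZero.ne N
    positivity
  have h := hB1 N (t + 1)
    (Fin.cons (ker (2 ^ a) w0 c0) (fun i => ker (2 ^ a' i) (w' i) (cc i)))
    (fun i => beta N (2 ^ (Fin.cons a a' : Fin (t + 1) → ℕ) i)) (ext g) ?_
  · unfold Ev
    refine le_trans (le_of_eq ?_) h
    congr 1
    congr 1
    · apply sum_congr rfl
      intro k _
      rw [Fin.prod_univ_succ]
      simp [ext]
    · rw [Fin.prod_univ_succ]
      simp only [Fin.cons_zero, Fin.cons_succ]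
      rw [sum_ker _ _ Nat.one_le_two_pow]
      have : ∀ i, ∑ x, ker (2 ^ a' i) (w' i) (cc i) x = w' i :=
        fun i => sum_ker _ _ Nat.one_le_two_pow _
      simp only [this]
      field_simp
  · intro i m
    refine Fin.cases ?_ (fun j => ?_) i
    · simp only [Fin.cons_zero]
      exact hA1 N _ _ Nat.one_le_two_pow hw0 _ _
    · simp only [Fin.cons_succ]
      exact hA1 N _ _ Nat.one_le_two_pow (hw' j) _ _

theorem bracket (hA1 : StA1) (hB1 : StB1) (A : ℕ) (hA : 2 ^ A ≤ N) (hA2 : N < 2 ^ (A + 1))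
    (g : Fin t → ZMod N) (a' : Fin t → ℕ) (ha : ∀ i, a' i ≤ A)
    (w' : Fin t → ℕ) (hw' : ∀ i, w' i ≤ 3 * 2 ^ a' i) (cc : Fin t → ZMod N)
    (c0 : ZMod N) (l0 : ℕ) (hl0 : l0 ≤ N) :
    |∑ k, ind c0 l0 k * ∏ i, ker (2 ^ a' i) (w' i) (cc i) (g i * k) -
      l0 * ∏ i, ((w' i : ℝ) / N)| ≤
    5 * ∑ a ∈ Ico (astar N t A a') (A + 1), Ev g (Fin.cons a a') + 16 * 3 ^ t := by
  have hN : (0 : ℝ) < N := by
    have := NeZero.pos N
    positivity
  set as := astar N t A a' with has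
  have hasA : as ≤ A := astar_le N t A a'
  obtain ⟨κ, v', dd, c1, c2, hκ, hv, hR0, hR1, -⟩ := decompT A hA2 as c0 l0 hl0
  set K : ZMod N → ℝ := fun k => ∏ i, ker (2 ^ a' i) (w' i) (cc i) (g i * k) with hK
  set M : ℝ := ∏ i, ((w' i : ℝ) / N) with hM
  have hK0 : ∀ k, 0 ≤ K k := fun k => prod_nonneg fun i _ => ker_nonneg _ _ _ _
  have hM0 : 0 ≤ M := prod_nonneg fun i _ => by positivity
  have hMle : M * 2 ^ as ≤ 2 * 3 ^ t := by
    have h1 : M ≤ ∏ i, (3 * (2 : ℝ) ^ a' i / N) := by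
      apply prod_le_prod
      · intro i _
        positivity
      · intro i _
        apply div_le_div_of_nonneg_right _ hN.le
        exact_mod_cast hw' i
    have h2 : ∏ i : Fin t, (3 * (2 : ℝ) ^ a' i / N) = 3 ^ t * 2 ^ (∑ i, a' i) / N ^ t := by
      rw [prod_div_distrib, prod_mul_distrib]
      simp [prod_pow_eq_pow_sum]
    have h3 := astar_vol N t A hA a' ha
    rw [← has] at h3
    have h4 : (2 : ℝ) ^ (as + ∑ i, a' i) ≤ 2 * N ^ t := by exact_mod_cast h3
    calc M * 2 ^ as ≤ (3 ^ t * 2 ^ (∑ i, a' i) / N ^ t) * 2 ^ as := by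
          rw [← h2]
          exact mul_le_mul_of_nonneg_right h1 (by positivity)
      _ = 3 ^ t * 2 ^ (as + ∑ i, a' i) / N ^ t := by
          rw [pow_add]
          ring
      _ ≤ 3 ^ t * (2 * N ^ t) / N ^ t := by gcongr
      _ = 2 * 3 ^ t := by field_simp
  set R : ZMod N → ℝ := fun k => ind c0 l0 k -
    ∑ a ∈ Ico as (A + 1), ∑ e, κ a e * ker (2 ^ a) (v' a e) (dd a e) k with hR
  have hk := one_kernel hA1 hB1 g a' w' hw' cc
  have hsplit : ∑ k, ind c0 l0 k * K k - l0 * M =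
      ∑ a ∈ Ico as (A + 1), ∑ e, κ a e *
        (∑ k, ker (2 ^ a) (v' a e) (dd a e) k * K k - v' a e * M) +
      (∑ k, R k * K k - (∑ k, R k) * M) := by
    have e1 : ∑ k, ind c0 l0 k * K k = ∑ a ∈ Ico as (A + 1), ∑ e, κ a e *
        ∑ k, ker (2 ^ a) (v' a e) (dd a e) k * K k + ∑ k, R k * K k := by
      have : ∀ k, ind c0 l0 k * K k = ∑ a ∈ Ico as (A + 1), ∑ e, κ a e *
          (ker (2 ^ a) (v' a e) (dd a e) k * K k) + R k * K k := by
        intro k
        simp only [hR]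
        rw [sub_mul, sum_mul]
        have : ∀ a, (∑ e, κ a e * ker (2 ^ a) (v' a e) (dd a e) k) * K k =
            ∑ e, κ a e * (ker (2 ^ a) (v' a e) (dd a e) k * K k) := by
          intro a
          rw [sum_mul]
          exact sum_congr rfl fun e _ => by ring
        simp only [this]
        ring
      rw [sum_congr rfl fun k _ => this k, sum_add_distrib, sum_comm]
      congr 1
      apply sum_congr rfl
      intro a _
      rw [sum_comm]
      exact sum_congr rfl fun e _ => by rw [mul_sum]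
    have e2 : (l0 : ℝ) = ∑ a ∈ Ico as (A + 1), ∑ e, κ a e * v' a e + ∑ k, R k := by
      have h9 : ∑ k : ZMod N, ∑ a ∈ Ico as (A + 1), ∑ e,
          κ a e * ker (2 ^ a) (v' a e) (dd a e) k =
          ∑ a ∈ Ico as (A + 1), ∑ e, κ a e * v' a e := by
        rw [sum_comm]
        apply sum_congr rfl
        intro a _
        rw [sum_comm]
        apply sum_congr rfl
        intro e _
        rw [← mul_sum, sum_ker _ _ Nat.one_le_two_pow]
      simp only [hR]
      rw [sum_sub_distrib, sum_ind, h9]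
      ring
    rw [e1]
    nth_rw 1 [e2]
    simp only [mul_sub, sum_sub_distrib, add_mul, sum_mul]
    have : ∀ a e, κ a e * ((v' a e : ℝ) * M) = κ a e * (v' a e) * M := fun a e => by ring
    simp only [this]
    ring
  have h1 : |∑ a ∈ Ico as (A + 1), ∑ e, κ a e *
        (∑ k, ker (2 ^ a) (v' a e) (dd a e) k * K k - v' a e * M)| ≤
      3 * ∑ a ∈ Ico as (A + 1), Ev g (Fin.cons a a') := by
    rw [mul_sum]
    refine (abs_sum_le_sum_abs _ _).trans (sum_le_sum fun a _ => ?_)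
    refine (abs_sum_le_sum_abs _ _).trans ?_
    calc _ ≤ ∑ _e : Fin 3, Ev g (Fin.cons a a') := by
          apply sum_le_sum
          intro e _
          rw [abs_mul, abs_of_nonneg (hκ a e).1]
          calc _ ≤ 1 * |∑ k, ker (2 ^ a) (v' a e) (dd a e) k * K k - v' a e * M| :=
                mul_le_mul_of_nonneg_right (hκ a e).2 (abs_nonneg _)
            _ ≤ _ := by
                rw [one_mul]
                exact hk a (v' a e) (hv a e) (dd a e)
      _ = _ := by simp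
  have h2 : ∀ c, ∑ k, ker (2 ^ as) (2 * 2 ^ as) c k * K k ≤
      2 * 2 ^ as * M + Ev g (Fin.cons as a') := by
    intro c
    have := (abs_le.1 (hk as (2 * 2 ^ as) (by omega) c)).2
    push_cast at this
    linarith
  have h3 : ∑ k, R k * K k ≤ 4 * 2 ^ as * M + 2 * Ev g (Fin.cons as a') := by
    calc ∑ k, R k * K k ≤ ∑ k, (ker (2 ^ as) (2 * 2 ^ as) c1 k * K k +
          ker (2 ^ as) (2 * 2 ^ as) c2 k * K k) := by
          apply sum_le_sum
          intro k _
          rw [← add_mul]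
          exact mul_le_mul_of_nonneg_right (hR1 k) (hK0 k)
      _ ≤ _ := by
          rw [sum_add_distrib]
          linarith [h2 c1, h2 c2]
  have h4 : (∑ k, R k) * M ≤ 4 * 2 ^ as * M := by
    apply mul_le_mul_of_nonneg_right _ hM0
    calc ∑ k, R k ≤ ∑ k, (ker (2 ^ as) (2 * 2 ^ as) c1 k + ker (2 ^ as) (2 * 2 ^ as) c2 k) :=
          sum_le_sum fun k _ => hR1 k
      _ = _ := by
          rw [sum_add_distrib, sum_ker _ _ Nat.one_le_two_pow, sum_ker _ _ Nat.one_le_two_pow]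
          push_cast
          ring
  have h5 : 0 ≤ ∑ k, R k * K k := sum_nonneg fun k _ => mul_nonneg (hR0 k) (hK0 k)
  have h6 : 0 ≤ (∑ k, R k) * M := mul_nonneg (sum_nonneg fun k _ => hR0 k) hM0
  have h7 : |∑ k, R k * K k - (∑ k, R k) * M| ≤
      8 * (M * 2 ^ as) + 2 * Ev g (Fin.cons as a') := by
    rw [abs_le]
    constructor <;> nlinarith [Ev_nonneg g (Fin.cons as a')]
  have h8 : Ev g (Fin.cons as a') ≤ ∑ a ∈ Ico as (A + 1), Ev g (Fin.cons a a') :=
    single_le_sum (f := fun a => Ev g (Fin.cons a a')) (fun a _ => Ev_nonneg _ _)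
      (mem_Ico.2 ⟨le_rfl, by omega⟩)
  rw [hsplit]
  refine (abs_add_le _ _).trans ?_
  linarith

/-- the total error -/
noncomputable def EE (A : ℕ) (g : Fin t → ZMod N) : ℝ :=
  ∑ p ∈ Fintype.piFinset (fun _ : Fin t => range (A + 1) ×ˢ (univ : Finset (Fin 3))),
    (5 * ∑ a ∈ Ico (astar N t A (fun i => (p i).1)) (A + 1),
      Ev g (Fin.cons a (fun i => (p i).1)) + 16 * 3 ^ t)

theorem latBound_EE (hA1 : StA1) (hB1 : StB1) (A : ℕ) (hA : 2 ^ A ≤ N) (hA2 : N < 2 ^ (A + 1))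
    (g : Fin t → ZMod N) : LatBound g (EE A g) := by
  classical
  have hN : (0 : ℝ) < N := by
    have := NeZero.pos N
    positivity
  intro c l hl
  choose κ w' cc c1 c2 hκ hw hR0 hR1 hex using
    fun i : Fin t => decompT A hA2 0 (c i.succ) (l i.succ) (hl i.succ)
  set S : Finset (ℕ × Fin 3) := range (A + 1) ×ˢ (univ : Finset (Fin 3)) with hS
  have hind : ∀ i x, ind (c i.succ) (l i.succ) x =
      ∑ p ∈ S, κ i p.1 p.2 * ker (2 ^ p.1) (w' i p.1 p.2) (cc i p.1 p.2) x := by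
    intro i x
    rw [hex i rfl x, hS, sum_product, ← Finset.range_eq_Ico]
  have hlen : ∀ i, ((l i.succ : ℕ) : ℝ) / N = ∑ p ∈ S, κ i p.1 p.2 * (w' i p.1 p.2 / N) := by
    intro i
    rw [← sum_ind (c i.succ) (l i.succ)]
    simp only [hind]
    rw [sum_comm, sum_div]
    apply sum_congr rfl
    intro p _
    rw [← mul_sum, sum_ker _ _ Nat.one_le_two_pow, mul_div_assoc]
  have h0 : ∀ k : ZMod N, ∏ i, ind (c i) (l i) (ext g i * k) =
      ind (c 0) (l 0) k * ∏ i : Fin t, ind (c i.succ) (l i.succ) (g i * k) := by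
    intro k
    rw [Fin.prod_univ_succ]
    simp [ext]
  have h1 : ∀ k : ZMod N, ∏ i : Fin t, ind (c i.succ) (l i.succ) (g i * k) =
      ∑ p ∈ Fintype.piFinset (fun _ : Fin t => S), (∏ i, κ i (p i).1 (p i).2) *
        ∏ i, ker (2 ^ (p i).1) (w' i (p i).1 (p i).2) (cc i (p i).1 (p i).2) (g i * k) := by
    intro k
    simp only [hind]
    rw [Finset.prod_univ_sum]
    exact sum_congr rfl fun p _ => prod_mul_distrib
  have h2 : ∏ i : Fin t, (((l i.succ : ℕ) : ℝ) / N) =
      ∑ p ∈ Fintype.piFinset (fun _ : Fin t => S), (∏ i, κ i (p i).1 (p i).2) *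
        ∏ i, ((w' i (p i).1 (p i).2 : ℝ) / N) := by
    simp only [hlen]
    rw [Finset.prod_univ_sum]
    exact sum_congr rfl fun p _ => prod_mul_distrib
  have h3 : ∑ k : ZMod N, ∏ i, ind (c i) (l i) (ext g i * k) - N * ∏ i, ((l i : ℝ) / N) =
      ∑ p ∈ Fintype.piFinset (fun _ : Fin t => S), (∏ i, κ i (p i).1 (p i).2) *
        (∑ k, ind (c 0) (l 0) k *
          ∏ i, ker (2 ^ (p i).1) (w' i (p i).1 (p i).2) (cc i (p i).1 (p i).2) (g i * k) -
          l 0 * ∏ i, ((w' i (p i).1 (p i).2 : ℝ) / N)) := by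
    have e1 : N * ∏ i, ((l i : ℝ) / N) = l 0 * ∏ i : Fin t, (((l i.succ : ℕ) : ℝ) / N) := by
      rw [Fin.prod_univ_succ]
      field_simp
    rw [e1, h2]
    simp only [h0, h1]
    simp only [mul_sub, sum_sub_distrib]
    congr 1
    · simp only [mul_sum]
      rw [sum_comm]
      apply sum_congr rfl
      intro p _
      apply sum_congr rfl
      intro k _
      ring
    · rw [mul_sum]
      apply sum_congr rfl
      intro p _
      ring
  rw [h3, EE]
  refine (abs_sum_le_sum_abs _ _).trans (sum_le_sum fun p hp => ?_)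
  have hp' : ∀ i, (p i).1 ≤ A := by
    intro i
    have := (Fintype.mem_piFinset.1 hp) i
    rw [hS, mem_product] at this
    have := mem_range.1 this.1
    omega
  rw [abs_mul]
  have hκ0 : 0 ≤ ∏ i, κ i (p i).1 (p i).2 := prod_nonneg fun i _ => (hκ i _ _).1
  have hκ1 : ∏ i, κ i (p i).1 (p i).2 ≤ 1 :=
    prod_le_one (fun i _ => (hκ i _ _).1) fun i _ => (hκ i _ _).2
  rw [abs_of_nonneg hκ0]
  have hb := bracket hA1 hB1 A hA hA2 g (fun i => (p i).1) hp' (fun i => w' i (p i).1 (p i).2)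
    (fun i => hw i _ _) (fun i => cc i (p i).1 (p i).2) (c 0) (l 0) (hl 0)
  calc _ ≤ 1 * _ := mul_le_mul_of_nonneg_right hκ1 (abs_nonneg _)
    _ ≤ _ := by
      rw [one_mul]
      exact hb

end Pool.Agent.L0h76.H
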