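import Pool.Agent.L0h76.H.D3

/-!
# Module D: the discrepancy of the hybrid point set from the lattice counts
-/

set_option autoImplicit false

namespace Pool.Agent.L0h76.H

open Finset

lemma prod_box {ι : Type*} [Fintype ι] (u v x : ι → ℝ) [Decidable (∀ i, u i ≤ x i ∧ x i < v i)] :
    ∏ i, box (u i) (v i) (x i) = if (∀ i, u i ≤ x i ∧ x i < v i) then 1 else 0 := by
  unfold box
  split_ifs with h
  · exact Finset.prod_eq_one fun i _ => if_pos (h i)
  · push Not at h
    obtain ⟨i, hi⟩ := h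
    apply Finset.prod_eq_zero (mem_univ i)
    rw [if_neg]
    intro hh
    exact absurd hh.2 (not_lt.mpr (hi hh.1))

/-- the product of the digit conditions is one residue class -/
lemma digit_class {s : ℕ} (b : Fin s → ℕ) (hb : ∀ j, 2 ≤ b j)
    (hco : Pairwise fun i j => Nat.Coprime (b i) (b j)) (l y : Fin s → ℕ)
    (hy : ∀ j, y j < b j ^ l j) :
    ∃ R, R < ∏ j, b j ^ l j ∧ ∀ n, (∏ j, if rv (b j) (l j) n = y j then (1 : ℝ) else 0) =
      if n % (∏ j, b j ^ l j) = R then (1 : ℝ) else 0 := by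
  obtain ⟨R, hR, hRn⟩ := crt (fun j => b j ^ l j) (fun j => iv (b j) (l j) (y j))
    (fun j => by have := hb j; positivity)
    (fun i j hij => Nat.Coprime.pow _ _ (hco hij)) (fun j => iv_lt (hb j) _ _)
  refine ⟨R, hR, fun n => ?_⟩
  have h1 : (∀ j, rv (b j) (l j) n = y j) ↔ n % (∏ j, b j ^ l j) = R := by
    rw [← hRn n]
    exact forall_congr' fun j => rv_eq_iff (hb j) (l j) n (y j) (hy j)
  by_cases h : ∀ j, rv (b j) (l j) n = y j
  · rw [if_pos (h1.mp h)]
    exact Finset.prod_eq_one fun j _ => if_pos (h j)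
  · rw [if_neg (fun hh => h (h1.mpr hh))]
    push Not at h
    obtain ⟨j, hj⟩ := h
    exact Finset.prod_eq_zero (mem_univ j) (if_neg hj)

theorem stD : StD := by
  classical
  intro s t b hb hco N _ g Dl hDl0 hD u v hu huv hv
  have hN : (0 : ℝ) < N := by exact_mod_cast Nat.pos_of_ne_zero (NeZero.ne N)
  have hbp : ∀ j, (0 : ℝ) < b j := fun j => by
    have : 0 < b j := by have := hb j; omega
    exact_mod_cast this
  set L : Fin s → ℕ := fun j => Nat.clog (b j) N with hL
  have hNL : ∀ j, N ≤ b j ^ L j := fun j => Nat.le_pow_clog (by have := hb j; omega) N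
  set U : Fin s → ℕ := fun j => ⌈u (Sum.inr (Sum.inl j)) * (b j : ℝ) ^ L j⌉₊ with hU
  set V : Fin s → ℕ := fun j => ⌈v (Sum.inr (Sum.inl j)) * (b j : ℝ) ^ L j⌉₊ with hV
  have hbL : ∀ j, (0 : ℝ) < (b j : ℝ) ^ L j := fun j => pow_pos (hbp j) _
  have hUV : ∀ j, U j ≤ V j := by
    intro j
    simp only [hU, hV]
    apply Nat.ceil_le_ceil
    exact mul_le_mul_of_nonneg_right (huv _) (hbL j).le
  have hVb : ∀ j, V j ≤ b j ^ L j := by
    intro j
    simp only [hV]
    rw [Nat.ceil_le]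
    push_cast
    have h1 := hbL j
    have h2 := hv (Sum.inr (Sum.inl j))
    nlinarith
  choose S hS1 hS2 hS3 hS4 using fun j => decomp (hb j) (L j) (U j) (V j) (hUV j) (hVb j)
  set u0 := u (Sum.inl ()) with hu0
  set v0 := v (Sum.inl ()) with hv0
  set P' := ∏ i : Fin t, (v (Sum.inr (Sum.inr i)) - u (Sum.inr (Sum.inr i))) with hP'
  set Q : (Fin s → ℕ) → ℕ := fun l => ∏ j, b j ^ l j with hQ
  set Z : Finset (Fin s → ℕ) := Fintype.piFinset (fun j => range (L j + 1)) with hZ
  -- the count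
  have hcard : (((range N).filter (fun n => ∀ i, u i ≤ pt b N g n i ∧ pt b N g n i < v i)).card : ℝ)
      = ∑ l ∈ Z, ∑ y ∈ Fintype.piFinset (fun j => S j (l j)), ∑ n ∈ range N,
        box u0 v0 ((n : ℝ) / N) * (∏ j, if rv (b j) (l j) n = y j then (1 : ℝ) else 0) *
          ∏ i : Fin t, box (u (Sum.inr (Sum.inr i))) (v (Sum.inr (Sum.inr i)))
            (Int.fract ((n : ℝ) * (g i : ℝ) / N)) := by
    rw [Finset.card_filter]
    push_cast
    have h1 : ∀ n ∈ range N, (if (∀ i, u i ≤ pt b N g n i ∧ pt b N g n i < v i) then (1 : ℝ) else 0) =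
        ∑ l ∈ Z, ∑ y ∈ Fintype.piFinset (fun j => S j (l j)),
        box u0 v0 ((n : ℝ) / N) * (∏ j, if rv (b j) (l j) n = y j then (1 : ℝ) else 0) *
          ∏ i : Fin t, box (u (Sum.inr (Sum.inr i))) (v (Sum.inr (Sum.inr i)))
            (Int.fract ((n : ℝ) * (g i : ℝ) / N)) := by
      intro n hn
      rw [← prod_box, Fintype.prod_sum_type, Fintype.prod_sum_type]
      simp only [univ_unique, prod_singleton, PUnit.default_eq_unit, pt]
      have h2 : ∀ j, box (u (Sum.inr (Sum.inl j))) (v (Sum.inr (Sum.inl j))) (radInv (b j) n) =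
          ∑ l ∈ range (L j + 1), ∑ y ∈ S j l, if rv (b j) l n = y then (1 : ℝ) else 0 := by
        intro j
        rw [← hS3 j n, box, radInv_eq (hb j) (L j) n (lt_of_lt_of_le (mem_range.mp hn) (hNL j))]
        have h3 : (u (Sum.inr (Sum.inl j)) ≤ (rv (b j) (L j) n : ℝ) / (b j : ℝ) ^ L j ∧
            (rv (b j) (L j) n : ℝ) / (b j : ℝ) ^ L j < v (Sum.inr (Sum.inl j))) ↔
            (U j ≤ rv (b j) (L j) n ∧ rv (b j) (L j) n < V j) := by
          simp only [hU, hV]
          rw [Nat.ceil_le, Nat.lt_ceil, le_div_iff₀ (hbL j), div_lt_iff₀ (hbL j)]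
        by_cases h : (U j ≤ rv (b j) (L j) n ∧ rv (b j) (L j) n < V j)
        · rw [if_pos (h3.mpr h), if_pos h]
        · rw [if_neg (fun hh => h (h3.mp hh)), if_neg h]
      simp_rw [h2]
      rw [Finset.prod_univ_sum, ← mul_assoc, Finset.mul_sum, Finset.sum_mul]
      refine Finset.sum_congr rfl fun l _ => ?_
      rw [Finset.prod_univ_sum, Finset.mul_sum, Finset.sum_mul]
    rw [Finset.sum_congr rfl h1, Finset.sum_comm]
    refine Finset.sum_congr rfl fun l _ => ?_
    rw [Finset.sum_comm]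
  -- one tuple
  have hone : ∀ l ∈ Z, ∀ y ∈ Fintype.piFinset (fun j => S j (l j)),
      |∑ n ∈ range N,
        box u0 v0 ((n : ℝ) / N) * (∏ j, if rv (b j) (l j) n = y j then (1 : ℝ) else 0) *
          (∏ i : Fin t, box (u (Sum.inr (Sum.inr i))) (v (Sum.inr (Sum.inr i)))
            (Int.fract ((n : ℝ) * (g i : ℝ) / N))) - N * (v0 - u0) / Q l * P'| ≤ Dl l + t + 1 := by
    intro l hl y hy
    rw [Fintype.mem_piFinset] at hy
    obtain ⟨R, hR, hRn⟩ := digit_class b hb hco l y (fun j => hS2 j (l j) (y j) (hy j))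
    simp_rw [hRn]
    have hlL : ∀ j, l j ≤ Nat.clog (b j) N := by
      intro j
      have := (Fintype.mem_piFinset.mp hl) j
      rw [mem_range] at this
      have h : l j ≤ L j := by omega
      exact h
    exact single g (Q l) R hR (Dl l) (hD l hlL) u0 v0 (hu _) (huv _) (hv _)
      (fun i => u (Sum.inr (Sum.inr i))) (fun i => v (Sum.inr (Sum.inr i)))
      (fun i => hu _) (fun i => huv _) (fun i => hv _)
  -- the main terms
  have hmain : ∑ l ∈ Z, ∑ y ∈ Fintype.piFinset (fun j => S j (l j)), N * (v0 - u0) / Q l * P' =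
      N * (v0 - u0) * P' * ∏ j, (((V j : ℝ) - U j) / (b j : ℝ) ^ L j) := by
    simp_rw [hS4]
    rw [Finset.prod_univ_sum, Finset.mul_sum]
    refine Finset.sum_congr rfl fun l _ => ?_
    rw [sum_const, Fintype.card_piFinset, nsmul_eq_mul, Finset.prod_div_distrib]
    simp only [hQ]
    push_cast
    ring
  have hu0' : 0 ≤ u0 := hu _
  have hv0' : v0 ≤ 1 := hv _
  have huv0 : u0 ≤ v0 := huv _
  have hP0 : 0 ≤ P' := Finset.prod_nonneg fun i _ => by linarith [huv (Sum.inr (Sum.inr i))]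
  have hP1 : P' ≤ 1 := Finset.prod_le_one (fun i _ => by linarith [huv (Sum.inr (Sum.inr i))])
    fun i _ => by linarith [hu (Sum.inr (Sum.inr i)), hv (Sum.inr (Sum.inr i))]
  set A := ∏ j, (((V j : ℝ) - U j) / (b j : ℝ) ^ L j) with hA
  set B := ∏ j, (v (Sum.inr (Sum.inl j)) - u (Sum.inr (Sum.inl j))) with hB
  have hAB : |A - B| ≤ s / N := by
    have hcast : ∀ j, (0 : ℝ) ≤ (V j : ℝ) - U j := fun j => by
      have : (U j : ℝ) ≤ V j := by exact_mod_cast hUV j
      linarith
    refine (prod_diff univ _ _ (fun j => div_nonneg (hcast j) (hbL j).le) (fun j => ?_)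
      (fun j => by linarith [huv (Sum.inr (Sum.inl j))])
      (fun j => by linarith [hu (Sum.inr (Sum.inl j)), hv (Sum.inr (Sum.inl j))])).trans ?_
    · rw [div_le_one (hbL j)]
      have h1 : ((V j : ℕ) : ℝ) ≤ ((b j ^ L j : ℕ) : ℝ) := by exact_mod_cast hVb j
      push_cast at h1
      have h2 : (0 : ℝ) ≤ U j := Nat.cast_nonneg _
      linarith
    · have h3 : ∀ j ∈ (univ : Finset (Fin s)), |((V j : ℝ) - U j) / (b j : ℝ) ^ L j -
          (v (Sum.inr (Sum.inl j)) - u (Sum.inr (Sum.inl j)))| ≤ 1 / N := by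
        intro j _
        have h4 := ceil_facts (x := u (Sum.inr (Sum.inl j)) * (b j : ℝ) ^ L j)
          (by have := hu (Sum.inr (Sum.inl j)); have := hbL j; nlinarith)
        have h5 := ceil_facts (x := v (Sum.inr (Sum.inl j)) * (b j : ℝ) ^ L j)
          (by
            have h6 := (hu (Sum.inr (Sum.inl j))).trans (huv (Sum.inr (Sum.inl j)))
            have := hbL j; nlinarith)
        have h6 : ((V j : ℝ) - U j) / (b j : ℝ) ^ L j -
            (v (Sum.inr (Sum.inl j)) - u (Sum.inr (Sum.inl j))) =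
            (((V j : ℝ) - v (Sum.inr (Sum.inl j)) * (b j : ℝ) ^ L j) -
              ((U j : ℝ) - u (Sum.inr (Sum.inl j)) * (b j : ℝ) ^ L j)) / (b j : ℝ) ^ L j := by
          have := (hbL j).ne'
          field_simp
          ring
        rw [h6, abs_div, abs_of_pos (hbL j)]
        have h7 : |((V j : ℝ) - v (Sum.inr (Sum.inl j)) * (b j : ℝ) ^ L j) -
              ((U j : ℝ) - u (Sum.inr (Sum.inl j)) * (b j : ℝ) ^ L j)| ≤ 1 := by
          simp only [hU, hV]
          rw [abs_le]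
          constructor <;> linarith [h4.1, h4.2, h5.1, h5.2]
        have h8 : (N : ℝ) ≤ (b j : ℝ) ^ L j := by exact_mod_cast hNL j
        gcongr
      refine (Finset.sum_le_sum h3).trans ?_
      rw [sum_const, card_univ, Fintype.card_fin, nsmul_eq_mul, mul_one_div]
  have hprod : N * ∏ i, (v i - u i) = N * (v0 - u0) * P' * B := by
    rw [Fintype.prod_sum_type, Fintype.prod_sum_type]
    simp only [univ_unique, prod_singleton, PUnit.default_eq_unit]
    rw [hu0, hv0, hP', hB]
    ring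
  rw [hprod]
  set M := (((range N).filter (fun n => ∀ i, u i ≤ pt b N g n i ∧ pt b N g n i < v i)).card : ℝ)
    with hM
  have hfirst : |M - N * (v0 - u0) * P' * A| ≤ (∏ j, (2 * (b j : ℝ))) * ∑ l ∈ Z, (Dl l + t + 1) := by
    rw [← hmain, hcard, ← Finset.sum_sub_distrib, Finset.mul_sum]
    refine (Finset.abs_sum_le_sum_abs _ _).trans (Finset.sum_le_sum fun l hl => ?_)
    rw [← Finset.sum_sub_distrib]
    refine (Finset.abs_sum_le_sum_abs _ _).trans ?_
    refine (Finset.sum_le_sum fun y hy => hone l hl y hy).trans ?_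
    rw [sum_const, nsmul_eq_mul, Fintype.card_piFinset]
    refine mul_le_mul_of_nonneg_right ?_ (by have := hDl0 l; positivity)
    push_cast
    refine Finset.prod_le_prod (fun j _ => Nat.cast_nonneg _) fun j _ => ?_
    exact_mod_cast hS1 j (l j)
  have hsecond : |N * (v0 - u0) * P' * A - N * (v0 - u0) * P' * B| ≤ s := by
    rw [← mul_sub, abs_mul]
    have h1 : |N * (v0 - u0) * P'| ≤ N := by
      rw [abs_of_nonneg (by have : 0 ≤ v0 - u0 := by linarith
                            positivity)]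
      have h2 : (v0 - u0) * P' ≤ 1 * 1 := by
        have : v0 - u0 ≤ 1 := by linarith
        gcongr
      calc N * (v0 - u0) * P' = N * ((v0 - u0) * P') := by ring
        _ ≤ N * (1 * 1) := by gcongr
        _ = N := by ring
    calc _ ≤ N * (s / N : ℝ) := by gcongr
      _ = s := by field_simp
  have hprodb : (1 : ℝ) ≤ ∏ j, (2 * (b j : ℝ)) := by
    calc (1 : ℝ) = ∏ _j : Fin s, (1 : ℝ) := by simp
      _ ≤ _ := by
        refine Finset.prod_le_prod (fun _ _ => zero_le_one) fun j _ => ?_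
        have : (2 : ℝ) ≤ b j := by exact_mod_cast hb j
        linarith
  have hZne : (1 : ℝ) ≤ ∑ l ∈ Z, (1 : ℝ) := by
    have : (0 : Fin s → ℕ) ∈ Z := by
      rw [hZ, Fintype.mem_piFinset]
      intro j
      simp
    have h1 : 1 ≤ Z.card := Finset.card_pos.mpr ⟨_, this⟩
    simp only [sum_const, nsmul_eq_mul, mul_one]
    exact_mod_cast h1
  have hs : (s : ℝ) ≤ (∏ j, (2 * (b j : ℝ))) * ∑ l ∈ Z, (s : ℝ) := by
    have h1 : ∑ l ∈ Z, (s : ℝ) = s * ∑ l ∈ Z, (1 : ℝ) := by rw [Finset.mul_sum]; simp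
    rw [h1]
    have h2 : (s : ℝ) * 1 ≤ s * ∑ l ∈ Z, (1 : ℝ) := by gcongr
    have h3 : 0 ≤ (s : ℝ) * ∑ l ∈ Z, (1 : ℝ) := by positivity
    nlinarith
  have hfin : |M - N * (v0 - u0) * P' * B| ≤
      (∏ j, (2 * (b j : ℝ))) * ∑ l ∈ Z, (Dl l + t + 1) + s := by
    have := abs_sub_le M (N * (v0 - u0) * P' * A) (N * (v0 - u0) * P' * B)
    linarith
  refine hfin.trans ?_
  have : (∏ j, (2 * (b j : ℝ))) * ∑ l ∈ Z, (Dl l + t + 1) + s ≤
      (∏ j, (2 * (b j : ℝ))) * ∑ l ∈ Z, (Dl l + t + 1) +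
        (∏ j, (2 * (b j : ℝ))) * ∑ l ∈ Z, (s : ℝ) := by linarith
  refine this.trans ?_
  rw [← mul_add, ← Finset.sum_add_distrib]
  refine mul_le_mul_of_nonneg_left ?_ (by linarith)
  refine Finset.sum_le_sum fun l _ => ?_
  linarith

end Pool.Agent.L0h76.H
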