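import Pool.Agent.L0h76.H.Defs

/-!
# Module D1: digits, digit reversal, elementary intervals
-/

set_option autoImplicit false

namespace Pool.Agent.L0h76.H

open Finset

/-- digit reversal -/
def rv (b : ℕ) : ℕ → ℕ → ℕ
  | 0, _ => 0
  | L + 1, n => b * rv b L n + n / b ^ L % b

/-- inverse digit reversal -/
def iv (b : ℕ) : ℕ → ℕ → ℕ
  | 0, _ => 0
  | L + 1, y => iv b L (y / b) + b ^ L * (y % b)

lemma rv_lt {b : ℕ} (hb : 2 ≤ b) (L n : ℕ) : rv b L n < b ^ L := by
  induction L with
  | zero => simp [rv]
  | succ L ih =>
    rw [rv, pow_succ]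
    have h1 : n / b ^ L % b < b := Nat.mod_lt _ (by omega)
    have h2 : b * (rv b L n + 1) ≤ b * b ^ L := Nat.mul_le_mul_left b ih
    rw [Nat.mul_comm (b ^ L) b]
    rw [Nat.mul_add] at h2
    omega

lemma iv_lt {b : ℕ} (hb : 2 ≤ b) (L y : ℕ) : iv b L y < b ^ L := by
  induction L generalizing y with
  | zero => simp [iv]
  | succ L ih =>
    rw [iv, pow_succ]
    have h1 : y % b < b := Nat.mod_lt _ (by omega)
    have h2 := ih (y / b)
    have h3 : b ^ L * (y % b + 1) ≤ b ^ L * b := Nat.mul_le_mul_left _ h1
    rw [Nat.mul_add] at h3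
    omega

lemma rv_eq_iff {b : ℕ} (hb : 2 ≤ b) (L n y : ℕ) (hy : y < b ^ L) :
    rv b L n = y ↔ n % b ^ L = iv b L y := by
  induction L generalizing y with
  | zero =>
    simp only [pow_zero, Nat.lt_one_iff] at hy
    simp [rv, iv, hy, Nat.mod_one]
  | succ L ih =>
    have hbp : 0 < b := by omega
    have h1 : y / b < b ^ L := by
      rw [Nat.div_lt_iff_lt_mul hbp]; rwa [← pow_succ]
    have h2 := ih (y / b) h1
    rw [rv, iv, pow_succ, Nat.mod_mul]
    have hd : n / b ^ L % b < b := Nat.mod_lt _ hbp
    have hd2 : y % b < b := Nat.mod_lt _ hbp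
    have hm : n % b ^ L < b ^ L := Nat.mod_lt _ (by positivity)
    have hm2 : iv b L (y / b) < b ^ L := iv_lt hb L _
    have hBp : 0 < b ^ L := by positivity
    constructor
    · intro h
      have e1 : y / b = rv b L n := by
        rw [← h, Nat.mul_add_div hbp, Nat.div_eq_of_lt hd, add_zero]
      have e2 : y % b = n / b ^ L % b := by
        rw [← h, Nat.mul_add_mod, Nat.mod_mod]
      rw [e2, ← h2.mp e1.symm]
    · intro h
      have e3 : n % b ^ L = iv b L (y / b) := by
        have := congrArg (· % b ^ L) h
        simp only [Nat.add_mul_mod_self_left] at this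
        rwa [Nat.mod_mod, Nat.mod_eq_of_lt hm2] at this
      have e4 : n / b ^ L % b = y % b := by
        rw [e3] at h
        exact Nat.eq_of_mul_eq_mul_left hBp (Nat.add_left_cancel h)
      rw [h2.mpr e3, e4, Nat.div_add_mod]

/-- decomposition of an interval into elementary intervals -/
lemma decomp {b : ℕ} (hb : 2 ≤ b) (L : ℕ) : ∀ U V : ℕ, U ≤ V → V ≤ b ^ L →
    ∃ S : ℕ → Finset ℕ, (∀ l, (S l).card ≤ 2 * b) ∧ (∀ l, ∀ y ∈ S l, y < b ^ l) ∧
      (∀ n, (if U ≤ rv b L n ∧ rv b L n < V then (1 : ℝ) else 0) =
        ∑ l ∈ range (L + 1), ∑ y ∈ S l, if rv b l n = y then (1 : ℝ) else 0) ∧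
      ((V : ℝ) - U) / (b : ℝ) ^ L = ∑ l ∈ range (L + 1), ((S l).card : ℝ) / (b : ℝ) ^ l := by
  induction L with
  | zero =>
    intro U V hUV hV
    rw [pow_zero] at hV
    refine ⟨fun l => if l = 0 then Ico U V else ∅, ?_, ?_, ?_, ?_⟩
    · intro l
      by_cases hl : l = 0
      · simp only [hl, if_true, Nat.card_Ico]; omega
      · simp [hl]
    · intro l y hy
      by_cases hl : l = 0
      · simp only [hl, if_true, mem_Ico] at hy
        rw [hl, pow_zero]; omega
      · simp [hl] at hy
    · intro n
      simp only [zero_add, range_one, sum_singleton, if_true]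
      rw [Finset.sum_ite_eq]
      simp only [mem_Ico]
    · simp only [zero_add, range_one, sum_singleton, if_true, Nat.card_Ico, pow_zero, div_one]
      rw [Nat.cast_sub hUV]
  | succ L ih =>
    intro U V hUV hV
    have hbp : 0 < b := by omega
    set V' := V / b with hV'
    set U' := min ((U + (b - 1)) / b) V' with hU'
    have hV'le : V' ≤ b ^ L := by
      rw [hV']
      apply Nat.div_le_of_le_mul
      rw [← pow_succ']; exact hV
    have hU'V' : U' ≤ V' := min_le_right _ _
    obtain ⟨S, hS1, hS2, hS3, hS4⟩ := ih U' V' hU'V' hV'le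
    set E := Ico U V \ Ico (b * U') (b * V') with hE
    have hVm := Nat.div_add_mod V b
    have hVl : V % b < b := Nat.mod_lt _ hbp
    have hUm := Nat.div_add_mod (U + (b - 1)) b
    have hUl : (U + (b - 1)) % b < b := Nat.mod_lt _ hbp
    have hbV : b * V' ≤ V := by rw [hV']; omega
    have hcase : (U ≤ b * U' ∧ b * U' < U + b) ∨ (U' = V' ∧ V < U + b) := by
      rcases le_total ((U + (b - 1)) / b) V' with h | h
      · left
        rw [hU', min_eq_left h]
        omega
      · rcases Nat.eq_or_lt_of_le h with h5 | h5
        · left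
          rw [hU', min_eq_right h, h5]
          omega
        · right
          refine ⟨by rw [hU', min_eq_right h], ?_⟩
          have h6 : b * (V' + 1) ≤ b * ((U + (b - 1)) / b) := Nat.mul_le_mul_left b h5
          rw [Nat.mul_add] at h6
          rw [hV'] at h6
          omega
    have hsub : Ico (b * U') (b * V') ⊆ Ico U V := by
      rcases hcase with h | h
      · exact Finset.Ico_subset_Ico h.1 hbV
      · rw [h.1, Ico_self]; exact empty_subset _
    have hbUV : b * U' ≤ b * V' := Nat.mul_le_mul_left b hU'V'
    have hEcard : E.card + (b * V' - b * U') = V - U := by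
      rw [hE, card_sdiff_of_subset hsub, Nat.card_Ico, Nat.card_Ico]
      have := card_le_card hsub
      rw [Nat.card_Ico, Nat.card_Ico] at this
      omega
    have hEle : E.card ≤ 2 * b := by
      rcases hcase with h | h
      · rw [← hV'] at hVm
        omega
      · omega
    refine ⟨fun l => if l = L + 1 then E else if l ≤ L then S l else ∅, ?_, ?_, ?_, ?_⟩
    · intro l
      by_cases h1 : l = L + 1
      · simp only [if_pos h1]; exact hEle
      · simp only [if_neg h1]
        split_ifs
        · exact hS1 l
        · simp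
    · intro l y hy
      by_cases h1 : l = L + 1
      · simp only [if_pos h1] at hy
        rw [hE, mem_sdiff, mem_Ico] at hy
        rw [h1]
        omega
      · simp only [if_neg h1] at hy
        split_ifs at hy
        · exact hS2 l y hy
        · simp at hy
    · intro n
      rw [sum_range_succ]
      beta_reduce
      rw [if_pos rfl]
      have e1 : ∑ l ∈ range (L + 1), ∑ y ∈ (if l = L + 1 then E else if l ≤ L then S l else ∅),
          (if rv b l n = y then (1 : ℝ) else 0) =
          ∑ l ∈ range (L + 1), ∑ y ∈ S l, if rv b l n = y then (1 : ℝ) else 0 := by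
        refine Finset.sum_congr rfl fun l hl => ?_
        rw [mem_range] at hl
        rw [if_neg (by omega), if_pos (by omega)]
      rw [e1, ← hS3 n, Finset.sum_ite_eq]
      have hrv : rv b (L + 1) n = b * rv b L n + n / b ^ L % b := rfl
      set d := n / b ^ L % b with hd
      have hdl : d < b := Nat.mod_lt _ hbp
      set r := rv b L n with hr
      have e2 : (U' ≤ r ∧ r < V') ↔ (rv b (L + 1) n ∈ Ico (b * U') (b * V')) := by
        rw [mem_Ico, hrv]
        constructor
        · rintro ⟨h1, h2⟩
          have h3 : b * U' ≤ b * r := Nat.mul_le_mul_left b h1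
          have h4 : b * (r + 1) ≤ b * V' := Nat.mul_le_mul_left b h2
          rw [Nat.mul_add] at h4
          omega
        · rintro ⟨h1, h2⟩
          constructor
          · by_contra hc
            have h3 : b * (r + 1) ≤ b * U' := Nat.mul_le_mul_left b (by omega)
            rw [Nat.mul_add] at h3
            omega
          · by_contra hc
            have h3 : b * V' ≤ b * r := Nat.mul_le_mul_left b (by omega)
            omega
      have e3 : (U ≤ rv b (L + 1) n ∧ rv b (L + 1) n < V) ↔ rv b (L + 1) n ∈ Ico U V := by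
        rw [mem_Ico]
      rw [hE]
      simp only [e2, e3, mem_sdiff]
      by_cases hA : rv b (L + 1) n ∈ Ico (b * U') (b * V')
      · have hB := hsub hA
        rw [if_pos hB, if_pos hA, if_neg (by tauto)]; ring
      · by_cases hB : rv b (L + 1) n ∈ Ico U V
        · rw [if_pos hB, if_neg hA, if_pos ⟨hB, hA⟩]; ring
        · rw [if_neg hB, if_neg hA, if_neg (by tauto)]; ring
    · rw [sum_range_succ]
      beta_reduce
      rw [if_pos rfl]
      have e1 : ∑ l ∈ range (L + 1),
          (((if l = L + 1 then E else if l ≤ L then S l else ∅).card : ℕ) : ℝ) / (b : ℝ) ^ l =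
          ∑ l ∈ range (L + 1), ((S l).card : ℝ) / (b : ℝ) ^ l := by
        refine Finset.sum_congr rfl fun l hl => ?_
        rw [mem_range] at hl
        rw [if_neg (by omega), if_pos (by omega)]
      rw [e1, ← hS4]
      have hbr : (0 : ℝ) < b := by exact_mod_cast hbp
      have e4 : (E.card : ℝ) + (b * V' - b * U') = V - U := by
        have : ((E.card + (b * V' - b * U') : ℕ) : ℝ) = ((V - U : ℕ) : ℝ) := by rw [hEcard]
        rw [Nat.cast_sub hUV] at this
        push_cast [Nat.cast_sub hbUV] at this
        exact this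
      rw [pow_succ]
      field_simp
      linarith

end Pool.Agent.L0h76.H
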