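import Pool.Agent.L0h76.H.D1

/-!
# Module D2: radical inverse, Chinese remainder, one tuple
-/

set_option autoImplicit false

namespace Pool.Agent.L0h76.H

open Finset

/-- partial radical inverse -/
lemma rv_div {b : ℕ} (hb : 2 ≤ b) (L n : ℕ) :
    (rv b L n : ℝ) / (b : ℝ) ^ L = ∑ j ∈ range L, ((n / b ^ j % b : ℕ) : ℝ) / (b : ℝ) ^ (j + 1) := by
  have hbr : (0 : ℝ) < b := by
    have : 0 < b := by omega
    exact_mod_cast this
  induction L with
  | zero => simp [rv]
  | succ L ih =>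
    rw [sum_range_succ, ← ih, rv, pow_succ]
    push_cast
    field_simp

lemma radInv_eq {b : ℕ} (hb : 2 ≤ b) (L n : ℕ) (hn : n < b ^ L) :
    radInv b n = (rv b L n : ℝ) / (b : ℝ) ^ L := by
  rw [rv_div hb]
  unfold radInv
  have hz : ∀ j, n < b ^ j → ((n / b ^ j % b : ℕ) : ℝ) / (b : ℝ) ^ (j + 1) = 0 := by
    intro j hj
    rw [Nat.div_eq_of_lt hj]; simp
  have h1 : ∑ j ∈ range n, ((n / b ^ j % b : ℕ) : ℝ) / (b : ℝ) ^ (j + 1) =
      ∑ j ∈ range (max n L), ((n / b ^ j % b : ℕ) : ℝ) / (b : ℝ) ^ (j + 1) := by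
    apply Finset.sum_subset
    · exact range_subset_range.mpr (le_max_left _ _)
    · intro j _ hj
      rw [mem_range, not_lt] at hj
      apply hz
      calc n < b ^ n := Nat.lt_pow_self (by omega)
        _ ≤ b ^ j := Nat.pow_le_pow_right (by omega) hj
  have h2 : ∑ j ∈ range L, ((n / b ^ j % b : ℕ) : ℝ) / (b : ℝ) ^ (j + 1) =
      ∑ j ∈ range (max n L), ((n / b ^ j % b : ℕ) : ℝ) / (b : ℝ) ^ (j + 1) := by
    apply Finset.sum_subset
    · exact range_subset_range.mpr (le_max_right _ _)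
    · intro j _ hj
      rw [mem_range, not_lt] at hj
      apply hz
      exact hn.trans_le (Nat.pow_le_pow_right (by omega) hj)
  rw [h1, h2]

lemma crt {s : ℕ} (q a : Fin s → ℕ) (hq : ∀ j, 0 < q j)
    (hco : Pairwise fun i j => Nat.Coprime (q i) (q j)) (ha : ∀ j, a j < q j) :
    ∃ R, R < ∏ j, q j ∧ ∀ n, (∀ j, n % q j = a j) ↔ n % (∏ j, q j) = R := by
  obtain ⟨k, hk⟩ := Nat.chineseRemainderOfFinset a q univ (fun j _ => (hq j).ne')
    (fun i _ j _ hij => hco hij)
  have hQ : 0 < ∏ j, q j := Finset.prod_pos fun j _ => hq j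
  refine ⟨k % ∏ j, q j, Nat.mod_lt _ hQ, fun n => ?_⟩
  have hk' : ∀ j, k % q j = a j := by
    intro j
    have := hk j (mem_univ j)
    rw [Nat.ModEq, Nat.mod_eq_of_lt (ha j)] at this
    exact this
  constructor
  · intro h
    have h1 : ∀ j, (q j : ℤ) ∣ (n : ℤ) - k := by
      intro j
      have : n % q j = k % q j := by rw [h j, hk' j]
      exact (Nat.modEq_iff_dvd.mp (show k ≡ n [MOD q j] from this.symm))
    have h2 : (∏ j, (q j : ℤ)) ∣ (n : ℤ) - k := by
      apply Fintype.prod_dvd_of_isRelPrime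
      · intro i j hij
        exact ((Nat.isCoprime_iff_coprime).mpr (hco hij)).isRelPrime
      · exact h1
    have h3 : k ≡ n [MOD ∏ j, q j] := by
      rw [Nat.modEq_iff_dvd]
      push_cast
      exact h2
    exact h3.symm
  · intro h j
    have h3 : n ≡ k [MOD ∏ j, q j] := h
    have h4 : n ≡ k [MOD q j] := h3.of_dvd (Finset.dvd_prod_of_mem q (mem_univ j))
    rw [← hk' j]
    exact h4

lemma sum_zmod {N : ℕ} [NeZero N] (f : ℕ → ℝ) :
    ∑ k : ZMod N, f k.val = ∑ k ∈ range N, f k := by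
  refine Finset.sum_nbij' (fun k : ZMod N => k.val) (fun k : ℕ => (k : ZMod N)) ?_ ?_ ?_ ?_ ?_
  · intro k _; exact mem_range.mpr (ZMod.val_lt k)
  · intro k _; exact mem_univ _
  · intro k _; exact ZMod.natCast_zmod_val k
  · intro k hk; exact ZMod.val_cast_of_lt (mem_range.mp hk)
  · intro k _; rfl

lemma ind_eq {N : ℕ} [NeZero N] (A B : ℕ) (hB : B ≤ N) (x : ZMod N) :
    ind (A : ZMod N) (B - A) x = if A ≤ x.val ∧ x.val < B then 1 else 0 := by
  unfold ind
  have h1 : ∀ j ∈ range (B - A), (if x = (A : ZMod N) + (j : ZMod N) then (1 : ℝ) else 0) =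
      if A + j = x.val then (1 : ℝ) else 0 := by
    intro j hj
    rw [mem_range] at hj
    have h2 : A + j < N := by omega
    have h3 : (x = (A : ZMod N) + (j : ZMod N)) ↔ A + j = x.val := by
      constructor
      · intro h
        rw [h, ← Nat.cast_add, ZMod.val_cast_of_lt h2]
      · intro h
        rw [← Nat.cast_add, h, ZMod.natCast_zmod_val]
    by_cases h : x = (A : ZMod N) + (j : ZMod N)
    · rw [if_pos h, if_pos (h3.mp h)]
    · rw [if_neg h, if_neg (fun hh => h (h3.mpr hh))]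
  rw [Finset.sum_congr rfl h1]
  by_cases h : A ≤ x.val ∧ x.val < B
  · rw [if_pos h, Finset.sum_eq_single (x.val - A)]
    · rw [if_pos (by omega)]
    · intro j _ hj
      rw [if_neg (by omega)]
    · intro hh
      exfalso; apply hh
      rw [mem_range]; omega
  · rw [if_neg h]
    refine Finset.sum_eq_zero fun j hj => ?_
    rw [mem_range] at hj
    rw [if_neg]
    intro hh; apply h; omega

lemma ind_shift {N : ℕ} (c z y : ZMod N) (l : ℕ) : ind (c - z) l y = ind c l (y + z) := by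
  unfold ind
  refine Finset.sum_congr rfl fun j _ => ?_
  have : (y = c - z + (j : ZMod N)) ↔ (y + z = c + (j : ZMod N)) := by
    constructor
    · intro h; rw [h]; ring
    · intro h; rw [← sub_eq_iff_eq_add] at h; rw [← h]; ring
  by_cases h : y = c - z + (j : ZMod N)
  · rw [if_pos h, if_pos (this.mp h)]
  · rw [if_neg h, if_neg (fun hh => h (this.mpr hh))]

lemma prod_diff {ι : Type*} (S : Finset ι) (a b : ι → ℝ) (ha0 : ∀ i, 0 ≤ a i) (ha : ∀ i, a i ≤ 1)
    (hb0 : ∀ i, 0 ≤ b i) (hb : ∀ i, b i ≤ 1) :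
    |∏ i ∈ S, a i - ∏ i ∈ S, b i| ≤ ∑ i ∈ S, |a i - b i| := by
  classical
  induction S using Finset.induction_on with
  | empty => simp
  | insert x S hx ih =>
    rw [prod_insert hx, prod_insert hx, sum_insert hx]
    have h1 : a x * ∏ i ∈ S, a i - b x * ∏ i ∈ S, b i =
        (a x - b x) * ∏ i ∈ S, a i + b x * (∏ i ∈ S, a i - ∏ i ∈ S, b i) := by ring
    rw [h1]
    refine (abs_add_le _ _).trans ?_
    rw [abs_mul, abs_mul]
    have hp0 : 0 ≤ ∏ i ∈ S, a i := Finset.prod_nonneg fun i _ => ha0 i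
    have hp1 : ∏ i ∈ S, a i ≤ 1 := Finset.prod_le_one (fun i _ => ha0 i) fun i _ => ha i
    rw [abs_of_nonneg hp0, abs_of_nonneg (hb0 x)]
    have := abs_nonneg (a x - b x)
    have := abs_nonneg (∏ i ∈ S, a i - ∏ i ∈ S, b i)
    have := hb x
    have := hb0 x
    nlinarith

lemma ceil_facts {x : ℝ} (hx : -1 < x) : x ≤ (⌈x⌉₊ : ℝ) ∧ (⌈x⌉₊ : ℝ) < x + 1 := by
  refine ⟨Nat.le_ceil x, ?_⟩
  rcases le_or_gt 0 x with h | h
  · exact Nat.ceil_lt_add_one h
  · rw [Nat.ceil_eq_zero.mpr h.le]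
    push_cast; linarith

end Pool.Agent.L0h76.H
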