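import Pool.Agent.L0h76.H.D2

/-!
# Module D3: one residue class
-/

set_option autoImplicit false

namespace Pool.Agent.L0h76.H

open Finset

/-- indicator of `u ≤ x < v` -/
noncomputable def box (u v x : ℝ) : ℝ := if u ≤ x ∧ x < v then 1 else 0

lemma box_frac {N : ℕ} [NeZero N] (u v : ℝ) (m : ℕ) (x : ZMod N) (hx : x = (m : ZMod N))
    (hv : v ≤ 1) :
    box u v (Int.fract ((m : ℝ) / N)) = ind ((⌈u * N⌉₊ : ℕ) : ZMod N) (⌈v * N⌉₊ - ⌈u * N⌉₊) x := by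
  have hN : (0 : ℝ) < N := by exact_mod_cast Nat.pos_of_ne_zero (NeZero.ne N)
  have hB : ⌈v * N⌉₊ ≤ N := by
    rw [Nat.ceil_le]
    nlinarith
  rw [ind_eq _ _ hB, hx, ZMod.val_natCast, Int.fract_div_natCast_eq_div_natCast_mod]
  unfold box
  have h1 : (u ≤ ((m % N : ℕ) : ℝ) / N ∧ ((m % N : ℕ) : ℝ) / N < v) ↔
      (⌈u * N⌉₊ ≤ m % N ∧ m % N < ⌈v * N⌉₊) := by
    rw [Nat.ceil_le, Nat.lt_ceil, le_div_iff₀ hN, div_lt_iff₀ hN]
  by_cases h : (u ≤ ((m % N : ℕ) : ℝ) / N ∧ ((m % N : ℕ) : ℝ) / N < v)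
  · rw [if_pos h, if_pos (h1.mp h)]
  · rw [if_neg h, if_neg (fun hh => h (h1.mpr hh))]

lemma class_sum {N : ℕ} [NeZero N] (Q R : ℕ) (hR : R < Q) (u v : ℝ)
    (hv : v ≤ 1) (H : ℕ → ℝ) :
    ∑ n ∈ range N, box u v ((n : ℝ) / N) * (if n % Q = R then (1 : ℝ) else 0) * H n =
      ∑ k ∈ range N, (if ⌈(u * N - R) / Q⌉₊ ≤ k ∧ k < ⌈(v * N - R) / Q⌉₊ then (1 : ℝ) else 0) *
        H (R + Q * k) := by
  have hN : (0 : ℝ) < N := by exact_mod_cast Nat.pos_of_ne_zero (NeZero.ne N)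
  have hQ : (0 : ℝ) < Q := by exact_mod_cast (Nat.zero_lt_of_lt hR)
  have hQn : 0 < Q := Nat.zero_lt_of_lt hR
  have hmem : ∀ k : ℕ, (u ≤ ((R + Q * k : ℕ) : ℝ) / N ∧ ((R + Q * k : ℕ) : ℝ) / N < v) ↔
      (⌈(u * N - R) / Q⌉₊ ≤ k ∧ k < ⌈(v * N - R) / Q⌉₊) := by
    intro k
    rw [Nat.ceil_le, Nat.lt_ceil, le_div_iff₀ hN, div_lt_iff₀ hN, div_le_iff₀ hQ, lt_div_iff₀ hQ]
    push_cast
    constructor
    · rintro ⟨h1, h2⟩
      constructor <;> nlinarith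
    · rintro ⟨h1, h2⟩
      constructor <;> nlinarith
  have e1 : ∑ n ∈ range N, box u v ((n : ℝ) / N) * (if n % Q = R then (1 : ℝ) else 0) * H n =
      ∑ n ∈ (range N).filter (fun n : ℕ => (u ≤ (n : ℝ) / N ∧ (n : ℝ) / N < v) ∧ n % Q = R), H n := by
    rw [Finset.sum_filter]
    refine Finset.sum_congr rfl fun n _ => ?_
    unfold box
    by_cases h1 : (u ≤ (n : ℝ) / N ∧ (n : ℝ) / N < v)
    · by_cases h2 : n % Q = R
      · rw [if_pos h1, if_pos h2, if_pos ⟨h1, h2⟩]; ring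
      · rw [if_neg h2, if_neg (show ¬ ((u ≤ (n : ℝ) / N ∧ (n : ℝ) / N < v) ∧ n % Q = R) from
          fun h => h2 h.2)]; ring
    · rw [if_neg h1, if_neg (show ¬ ((u ≤ (n : ℝ) / N ∧ (n : ℝ) / N < v) ∧ n % Q = R) from
          fun h => h1 h.1)]; ring
  have e2 : ∑ k ∈ range N, (if ⌈(u * N - R) / Q⌉₊ ≤ k ∧ k < ⌈(v * N - R) / Q⌉₊ then (1 : ℝ) else 0) *
        H (R + Q * k) =
      ∑ k ∈ (range N).filter (fun k => ⌈(u * N - R) / Q⌉₊ ≤ k ∧ k < ⌈(v * N - R) / Q⌉₊),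
        H (R + Q * k) := by
    rw [Finset.sum_filter]
    refine Finset.sum_congr rfl fun k _ => ?_
    split_ifs <;> simp
  rw [e1, e2]
  have hdm : ∀ n, n % Q = R → R + Q * (n / Q) = n := by
    intro n hn
    have := Nat.div_add_mod n Q
    omega
  refine Finset.sum_nbij' (fun n => n / Q) (fun k => R + Q * k) ?_ ?_ ?_ ?_ ?_
  · intro n hn
    rw [mem_filter, mem_range] at hn
    obtain ⟨hnN, h1, h2⟩ := hn
    rw [mem_filter, mem_range]
    refine ⟨lt_of_le_of_lt (Nat.div_le_self n Q) hnN, (hmem (n / Q)).mp ?_⟩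
    rw [hdm n h2]
    exact h1
  · intro k hk
    rw [mem_filter, mem_range] at hk
    obtain ⟨hkN, h1⟩ := hk
    have h2 := (hmem k).mpr h1
    rw [mem_filter, mem_range]
    refine ⟨?_, h2, ?_⟩
    · have h3 := h2.2
      rw [div_lt_iff₀ hN] at h3
      have h4 : ((R + Q * k : ℕ) : ℝ) < N := by nlinarith
      exact_mod_cast h4
    · rw [Nat.add_mul_mod_self_left, Nat.mod_eq_of_lt hR]
  · intro n hn
    rw [mem_filter] at hn
    exact hdm n hn.2.2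
  · intro k _
    show (R + Q * k) / Q = k
    rw [Nat.add_mul_div_left _ _ hQn, Nat.div_eq_of_lt hR, zero_add]
  · intro n hn
    rw [mem_filter] at hn
    show H n = H (R + Q * (n / Q))
    rw [hdm n hn.2.2]

lemma single {t N : ℕ} [NeZero N] (g : Fin t → ℕ) (Q R : ℕ) (hR : R < Q) (D : ℝ)
    (hD : LatBound (fun i => ((Q : ℕ) : ZMod N) * (g i : ZMod N)) D)
    (u0 v0 : ℝ) (hu0 : 0 ≤ u0) (huv0 : u0 ≤ v0) (hv0 : v0 ≤ 1)
    (u v : Fin t → ℝ) (hu : ∀ i, 0 ≤ u i) (huv : ∀ i, u i ≤ v i) (hv : ∀ i, v i ≤ 1) :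
    |∑ n ∈ range N, box u0 v0 ((n : ℝ) / N) * (if n % Q = R then (1 : ℝ) else 0) *
        ∏ i, box (u i) (v i) (Int.fract ((n : ℝ) * (g i : ℝ) / N))
      - N * (v0 - u0) / Q * ∏ i, (v i - u i)| ≤ D + t + 1 := by
  have hN : (0 : ℝ) < N := by exact_mod_cast Nat.pos_of_ne_zero (NeZero.ne N)
  have hQ : (0 : ℝ) < Q := by exact_mod_cast (Nat.zero_lt_of_lt hR)
  have hQ1 : (1 : ℝ) ≤ Q := by
    have : 1 ≤ Q := Nat.one_le_of_lt hR
    exact_mod_cast this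
  have hRQ : (R : ℝ) < Q := by exact_mod_cast hR
  have hR0 : (0 : ℝ) ≤ R := Nat.cast_nonneg R
  rw [class_sum Q R hR u0 v0 hv0]
  set K1 := ⌈(u0 * N - R) / Q⌉₊ with hK1
  set K2 := ⌈(v0 * N - R) / Q⌉₊ with hK2
  have hK2N : K2 ≤ N := by
    rw [hK2, Nat.ceil_le, div_le_iff₀ hQ]
    nlinarith
  have hK12 : K1 ≤ K2 := by
    rw [hK1, hK2]
    apply Nat.ceil_le_ceil
    gcongr
  rw [← sum_zmod (N := N) (fun k => (if K1 ≤ k ∧ k < K2 then (1 : ℝ) else 0) *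
        ∏ i, box (u i) (v i) (Int.fract (((R + Q * k : ℕ) : ℝ) * (g i : ℝ) / N)))]
  set c : Fin (t + 1) → ZMod N := Fin.cons ((K1 : ℕ) : ZMod N)
    (fun i => ((⌈u i * N⌉₊ : ℕ) : ZMod N) - (R : ZMod N) * (g i : ZMod N)) with hc
  set l : Fin (t + 1) → ℕ := Fin.cons (K2 - K1) (fun i => ⌈v i * N⌉₊ - ⌈u i * N⌉₊) with hl
  have hlN : ∀ i, l i ≤ N := by
    intro i
    refine Fin.cases ?_ ?_ i
    · rw [hl, Fin.cons_zero]; omega
    · intro j
      rw [hl, Fin.cons_succ]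
      have : ⌈v j * N⌉₊ ≤ N := by
        rw [Nat.ceil_le]
        have := hv j
        nlinarith
      omega
  have hterm : ∀ k : ZMod N, (if K1 ≤ k.val ∧ k.val < K2 then (1 : ℝ) else 0) *
        ∏ i, box (u i) (v i) (Int.fract (((R + Q * k.val : ℕ) : ℝ) * (g i : ℝ) / N)) =
      ∏ i, ind (c i) (l i) (ext (fun i => ((Q : ℕ) : ZMod N) * (g i : ZMod N)) i * k) := by
    intro k
    rw [Fin.prod_univ_succ]
    congr 1
    · rw [hc, hl, ext, Fin.cons_zero, Fin.cons_zero, Fin.cons_zero, one_mul, ind_eq _ _ hK2N]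
    · refine Finset.prod_congr rfl fun i _ => ?_
      rw [hc, hl, ext, Fin.cons_succ, Fin.cons_succ, Fin.cons_succ, ind_shift]
      have h1 : (((R + Q * k.val : ℕ) : ℝ) * (g i : ℝ) / N) =
          ((((R + Q * k.val) * g i : ℕ) : ℝ) / N) := by push_cast; ring
      rw [h1]
      apply box_frac _ _ _ _ _ (hv i)
      push_cast
      rw [ZMod.natCast_zmod_val]
      ring
  rw [Finset.sum_congr rfl fun k _ => hterm k]
  have hD' := hD c l hlN
  have hmain : |N * ∏ i, ((l i : ℝ) / N) - N * (v0 - u0) / Q * ∏ i, (v i - u i)| ≤ t + 1 := by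
    rw [Fin.prod_univ_succ]
    rw [hl, Fin.cons_zero]
    simp only [Fin.cons_succ]
    rw [Nat.cast_sub hK12]
    set P := ∏ i : Fin t, (((⌈v i * N⌉₊ - ⌈u i * N⌉₊ : ℕ) : ℝ) / N) with hP
    set P' := ∏ i : Fin t, (v i - u i) with hP'
    have hfac : ∀ i, |((⌈v i * N⌉₊ - ⌈u i * N⌉₊ : ℕ) : ℝ) / N - (v i - u i)| ≤ 1 / N := by
      intro i
      have h1 : ⌈u i * N⌉₊ ≤ ⌈v i * N⌉₊ := Nat.ceil_le_ceil (by have := huv i; gcongr)
      rw [Nat.cast_sub h1]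
      have h2 := ceil_facts (x := u i * N) (by have := hu i; nlinarith)
      have h3 := ceil_facts (x := v i * N) (by have := (hu i).trans (huv i); nlinarith)
      have h4 : ((⌈v i * N⌉₊ : ℝ) - ⌈u i * N⌉₊) / N - (v i - u i) =
          (((⌈v i * N⌉₊ : ℝ) - v i * N) - (⌈u i * N⌉₊ - u i * N)) / N := by
        field_simp
        ring
      rw [h4, abs_div, abs_of_pos hN]
      gcongr
      rw [abs_le]
      constructor <;> linarith
    have ha0 : ∀ i, 0 ≤ ((⌈v i * N⌉₊ - ⌈u i * N⌉₊ : ℕ) : ℝ) / N := fun i => by positivity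
    have ha1 : ∀ i, ((⌈v i * N⌉₊ - ⌈u i * N⌉₊ : ℕ) : ℝ) / N ≤ 1 := by
      intro i
      rw [div_le_one hN]
      have := hlN i.succ
      rw [hl, Fin.cons_succ] at this
      exact_mod_cast this
    have hb0 : ∀ i, 0 ≤ v i - u i := fun i => by linarith [huv i]
    have hb1 : ∀ i, v i - u i ≤ 1 := fun i => by linarith [hv i, hu i]
    have hPP : |P - P'| ≤ t / N := by
      refine (prod_diff univ _ _ ha0 ha1 hb0 hb1).trans ?_
      refine (Finset.sum_le_sum fun i _ => hfac i).trans ?_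
      rw [sum_const, card_univ, Fintype.card_fin, nsmul_eq_mul, mul_one_div]
    have hP0 : 0 ≤ P := Finset.prod_nonneg fun i _ => ha0 i
    have hP1 : P ≤ 1 := Finset.prod_le_one (fun i _ => ha0 i) fun i _ => ha1 i
    have hK : |((K2 : ℝ) - K1) - N * (v0 - u0) / Q| ≤ 1 := by
      have hq1 : -1 < (u0 * N - R) / Q := by
        rw [lt_div_iff₀ hQ]; nlinarith
      have hq2 : -1 < (v0 * N - R) / Q := by
        rw [lt_div_iff₀ hQ]; nlinarith
      have h2 := ceil_facts hq1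
      have h3 := ceil_facts hq2
      rw [← hK1] at h2
      rw [← hK2] at h3
      have h4 : N * (v0 - u0) / Q = (v0 * N - R) / Q - (u0 * N - R) / Q := by
        field_simp
        ring
      rw [h4, abs_le]
      constructor <;> linarith
    have hX0 : 0 ≤ N * (v0 - u0) / Q := by
      have : 0 ≤ v0 - u0 := by linarith
      positivity
    have hXN : N * (v0 - u0) / Q ≤ N := by
      rw [div_le_iff₀ hQ]
      have : v0 - u0 ≤ 1 := by linarith
      nlinarith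
    have e : (N : ℝ) * (((K2 : ℝ) - K1) / N * P) - N * (v0 - u0) / Q * P' =
        (((K2 : ℝ) - K1) - N * (v0 - u0) / Q) * P + N * (v0 - u0) / Q * (P - P') := by
      field_simp
      ring
    rw [e]
    refine (abs_add_le _ _).trans ?_
    rw [abs_mul, abs_mul, abs_of_nonneg hP0, abs_of_nonneg hX0]
    have h5 : |((K2 : ℝ) - K1) - N * (v0 - u0) / Q| * P ≤ 1 * 1 := by gcongr
    have h6 : N * (v0 - u0) / Q * |P - P'| ≤ N * (t / N) := by gcongr
    have h7 : (N : ℝ) * (t / N) = t := by field_simp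
    linarith
  have := abs_add_le (∑ k : ZMod N, ∏ i, ind (c i) (l i)
      (ext (fun i => ((Q : ℕ) : ZMod N) * (g i : ZMod N)) i * k) - N * ∏ i, ((l i : ℝ) / N))
      (N * ∏ i, ((l i : ℝ) / N) - N * (v0 - u0) / Q * ∏ i, (v i - u i))
  rw [sub_add_sub_cancel] at this
  linarith

end Pool.Agent.L0h76.H
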