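import Mathlib

/-!
# Hybrid Hammersley / lattice point sets (MP_dc06b6_nt): definitions
-/

set_option autoImplicit false

namespace Pool.Agent.L0h76.H

open Finset

/-- the absolute value of the least absolute residue of `m` modulo `N` -/
def cabs {N : ℕ} (m : ZMod N) : ℕ := m.valMinAbs.natAbs

/-- number of `j < l` with `x = c + j` (indicator of a cyclic interval if `l ≤ N`) -/
noncomputable def ind {N : ℕ} (c : ZMod N) (l : ℕ) (x : ZMod N) : ℝ :=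
  ∑ j ∈ range l, if x = c + (j : ZMod N) then (1 : ℝ) else 0

/-- trapezoid: mean of `w` successive translates of an interval of length `w'` -/
noncomputable def ker {N : ℕ} (w w' : ℕ) (c x : ZMod N) : ℝ :=
  (∑ i ∈ range w, ind (c + (i : ZMod N)) w' x) / w

/-- Fourier coefficient of a real function on `ZMod N` -/
noncomputable def hat {N : ℕ} [NeZero N] (F : ZMod N → ℝ) (m : ZMod N) : ℂ :=
  ∑ x, (F x : ℂ) * ZMod.stdAddChar (-(m * x))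

/-- bound for the Fourier coefficients of `ker w w' c`, `w' ≤ 3 w` -/
noncomputable def beta (N w : ℕ) (m : ZMod N) : ℝ :=
  if cabs m * w ≤ N then 3 * (w : ℝ) else (N : ℝ) ^ 2 / ((w : ℝ) * (cabs m : ℝ) ^ 2)

/-- `h · G = 0` in `ZMod N`, `h ≠ 0` -/
def Rel {N d : ℕ} (G h : Fin d → ZMod N) : Prop := h ≠ 0 ∧ ∑ i, h i * G i = 0

open Classical in
/-- the sum of `Φ` over the nonzero relations of `G` -/
noncomputable def relSum {N d : ℕ} [NeZero N] (G : Fin d → ZMod N)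
    (Φ : (Fin d → ZMod N) → ℝ) : ℝ :=
  ∑ h ∈ univ.filter (fun h : Fin d → ZMod N => Rel G h), Φ h

/-- the vector `(1, g)` -/
def ext {N t : ℕ} (g : Fin t → ZMod N) : Fin (t + 1) → ZMod N := Fin.cons 1 g

/-! ## statements of the modules -/

/-- A1 -/
def StA1 : Prop := ∀ (N : ℕ) [NeZero N] (w w' : ℕ) (_ : 1 ≤ w) (_ : w' ≤ 3 * w) (c m : ZMod N),
  ‖hat (ker w w' c) m‖ ≤ beta N w m

/-- A2 -/
def StA2 : Prop := ∀ (N : ℕ) [NeZero N] (w : ℕ) (_ : 1 ≤ w) (_ : w ≤ N),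
  ∑ m : ZMod N, beta N w m ≤ 20 * N

/-- A3 -/
def StA3 : Prop := ∀ (N : ℕ) [NeZero N] (w : ℕ) (_ : 1 ≤ w) (_ : w ≤ N),
  ∑ m : ZMod N, beta N w m * √((max 1 (cabs m) : ℕ) * (w : ℝ) / N) ≤ 20 * N

/-- B1 -/
def StB1 : Prop := ∀ (N : ℕ) [NeZero N] (d : ℕ) (F b : Fin d → ZMod N → ℝ) (G : Fin d → ZMod N)
  (_ : ∀ i m, ‖hat (F i) m‖ ≤ b i m),
  |∑ k : ZMod N, ∏ i, F i (G i * k) - N * ∏ i, ((∑ x, F i x) / N)| ≤
    N / (N : ℝ) ^ d * relSum G (fun h => ∏ i, b i (h i))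

/-- B2 -/
def StB2 : Prop := ∀ (N t : ℕ) [Fact N.Prime] (Φ : (Fin (t + 1) → ZMod N) → ℝ) (_ : ∀ h, 0 ≤ Φ h),
  N * ∑ g : Fin t → ZMod N, relSum (ext g) Φ ≤ (N : ℝ) ^ t * ∑ h, Φ h

/-- B3 -/
def StB3 : Prop := ∀ (N : ℕ) [NeZero N],
  ∑ m : ZMod N, (1 / ((max 1 (cabs m) : ℕ) : ℝ)) ≤ 3 + 2 * Real.log N

/-- discrepancy bound for the lattice `k ↦ (k, k g)` in all cyclic boxes -/
def LatBound {N t : ℕ} [NeZero N] (g : Fin t → ZMod N) (D : ℝ) : Prop :=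
  ∀ (c : Fin (t + 1) → ZMod N) (l : Fin (t + 1) → ℕ), (∀ i, l i ≤ N) →
    |∑ k : ZMod N, ∏ i, ind (c i) (l i) (ext g i * k) - N * ∏ i, ((l i : ℝ) / N)| ≤ D

/-- radical inverse (the digits `n / b ^ j % b` vanish for `j ≥ n`) -/
noncomputable def radInv (b n : ℕ) : ℝ :=
  ∑ j ∈ range n, ((n / b ^ j % b : ℕ) : ℝ) / (b : ℝ) ^ (j + 1)

/-- the points `(n / N, φ_b(n), {n g / N})` -/
noncomputable def pt {s t : ℕ} (b : Fin s → ℕ) (N : ℕ) (g : Fin t → ℕ) (n : ℕ) :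
    Unit ⊕ (Fin s ⊕ Fin t) → ℝ
  | Sum.inl _ => (n : ℝ) / N
  | Sum.inr (Sum.inl j) => radInv (b j) n
  | Sum.inr (Sum.inr i) => Int.fract ((n : ℝ) * (g i : ℝ) / N)

open Classical in
/-- D -/
def StD : Prop := ∀ (s t : ℕ) (b : Fin s → ℕ) (_ : ∀ j, 2 ≤ b j)
  (_ : Pairwise fun i j => Nat.Coprime (b i) (b j)) (N : ℕ) [NeZero N] (g : Fin t → ℕ)
  (Dl : (Fin s → ℕ) → ℝ) (_ : ∀ l, 0 ≤ Dl l)
  (_ : ∀ l : Fin s → ℕ, (∀ j, l j ≤ Nat.clog (b j) N) →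
    LatBound (fun i => ((∏ j, b j ^ l j : ℕ) : ZMod N) * (g i : ZMod N)) (Dl l))
  (u v : Unit ⊕ (Fin s ⊕ Fin t) → ℝ) (_ : ∀ i, 0 ≤ u i) (_ : ∀ i, u i ≤ v i) (_ : ∀ i, v i ≤ 1),
  |(((range N).filter (fun n => ∀ i, u i ≤ pt b N g n i ∧ pt b N g n i < v i)).card : ℝ) -
      N * ∏ i, (v i - u i)| ≤
    (∏ j, (2 * (b j : ℝ))) * ∑ l ∈ Fintype.piFinset (fun j => range (Nat.clog (b j) N + 1)),
      (Dl l + (s + t + 3))

end Pool.Agent.L0h76.H
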