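import Pool.Agent.L0h76.H.C2

/-!
# Averages over `g`
-/

set_option autoImplicit false

namespace Pool.Agent.L0h76.H

open Finset

/-- no small relations -/
def Good {N t : ℕ} (L : ℝ) (g : Fin t → ZMod N) : Prop :=
  ∀ h, Rel (ext g) h → (N : ℝ) ≤ L * ∏ i, ((max 1 (cabs (h i)) : ℕ) : ℝ)

theorem sum_prod_eq {N d : ℕ} [NeZero N] (f : Fin d → ZMod N → ℝ) :
    ∑ h : Fin d → ZMod N, ∏ i, f i (h i) = ∏ i, ∑ m, f i m := by
  classical
  rw [Finset.prod_univ_sum, Fintype.piFinset_univ]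

section
variable {N t : ℕ} [Fact N.Prime]

theorem avg_gen (hB2 : StB2) (f : Fin (t + 1) → ZMod N → ℝ) (hf : ∀ i m, 0 ≤ f i m)
    (hs : ∀ i, ∑ m, f i m ≤ 20 * N) :
    ∑ g : Fin t → ZMod N, (N / (N : ℝ) ^ (t + 1) * relSum (ext g) (fun h => ∏ i, f i (h i))) ≤
      N ^ t * 20 ^ (t + 1) := by
  have hN : (0 : ℝ) < N := by
    have := (Fact.out : N.Prime).pos
    exact_mod_cast this
  have h1 := hB2 N t (fun h => ∏ i, f i (h i)) (fun h => prod_nonneg fun i _ => hf i _)
  rw [sum_prod_eq] at h1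
  have h2 : ∏ i, ∑ m, f i m ≤ ∏ _i : Fin (t + 1), (20 * (N : ℝ)) :=
    prod_le_prod (fun i _ => sum_nonneg fun m _ => hf i m) fun i _ => hs i
  rw [prod_const, card_univ, Fintype.card_fin] at h2
  rw [← mul_sum]
  calc (N : ℝ) / N ^ (t + 1) * ∑ g : Fin t → ZMod N, relSum (ext g) (fun h => ∏ i, f i (h i))
      = (N * ∑ g : Fin t → ZMod N, relSum (ext g) (fun h => ∏ i, f i (h i))) / N ^ (t + 1) := by
        ring
    _ ≤ (N ^ t * (20 * N) ^ (t + 1)) / N ^ (t + 1) := by
        apply div_le_div_of_nonneg_right _ (by positivity)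
        exact h1.trans (mul_le_mul_of_nonneg_left h2 (by positivity))
    _ = _ := by
        rw [mul_pow]
        field_simp

theorem avg_one (hA2 : StA2) (hB2 : StB2) (a : Fin (t + 1) → ℕ) (ha : ∀ i, 2 ^ a i ≤ N) :
    ∑ g : Fin t → ZMod N, Ev g a ≤ N ^ t * 20 ^ (t + 1) := by
  unfold Ev
  exact avg_gen hB2 _ (fun i m => beta_nonneg _ _ _) fun i => hA2 N _ Nat.one_le_two_pow (ha i)

open Classical in
theorem avg_good (hA3 : StA3) (hB2 : StB2) (a : Fin (t + 1) → ℕ) (ha : ∀ i, 2 ^ a i ≤ N)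
    (L : ℝ) (hL : 0 < L) :
    ∑ g ∈ univ.filter (fun g : Fin t → ZMod N => Good L g), Ev g a ≤
      √(L * N ^ t / 2 ^ (∑ i, a i)) * (N ^ t * 20 ^ (t + 1)) := by
  have hN : (0 : ℝ) < N := by
    have := (Fact.out : N.Prime).pos
    exact_mod_cast this
  set f : Fin (t + 1) → ZMod N → ℝ := fun i m =>
    beta N (2 ^ a i) m * √((max 1 (cabs m) : ℕ) * ((2 ^ a i : ℕ) : ℝ) / N) with hf
  have h1 : ∀ g ∈ univ.filter (fun g : Fin t → ZMod N => Good L g), Ev g a ≤
      √(L * N ^ t / 2 ^ (∑ i, a i)) *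
        (N / (N : ℝ) ^ (t + 1) * relSum (ext g) (fun h => ∏ i, f i (h i))) := by
    intro g hg
    have hg' : Good L g := (mem_filter.1 hg).2
    unfold Ev
    have e : √(L * N ^ t / 2 ^ (∑ i, a i)) *
        (N / (N : ℝ) ^ (t + 1) * relSum (ext g) (fun h => ∏ i, f i (h i))) =
        N / (N : ℝ) ^ (t + 1) * (√(L * N ^ t / 2 ^ (∑ i, a i)) *
          relSum (ext g) (fun h => ∏ i, f i (h i))) := by ring
    rw [e]
    apply mul_le_mul_of_nonneg_left _ (by positivity)
    unfold relSum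
    rw [mul_sum]
    apply sum_le_sum
    intro h hh
    have hrel : Rel (ext g) h := (mem_filter.1 hh).2
    have h2 := hg' h hrel
    have h3 : ∏ i, f i (h i) = (∏ i, beta N (2 ^ a i) (h i)) *
        √(∏ i, ((max 1 (cabs (h i)) : ℕ) * ((2 ^ a i : ℕ) : ℝ) / N)) := by
      rw [hf]
      simp only
      rw [prod_mul_distrib]
      congr 1
      rw [Real.sqrt_eq_rpow, ← Real.finsetProd_rpow _ _ (fun i _ => by positivity)]
      simp only [Real.sqrt_eq_rpow]
    rw [h3]
    have h4 : 1 ≤ √(L * N ^ t / 2 ^ (∑ i, a i)) *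
        √(∏ i, ((max 1 (cabs (h i)) : ℕ) * ((2 ^ a i : ℕ) : ℝ) / N)) := by
      rw [← Real.sqrt_mul (by positivity)]
      rw [show (1 : ℝ) = √1 by simp]
      apply Real.sqrt_le_sqrt
      rw [prod_div_distrib, prod_mul_distrib]
      have h5 : ∏ i : Fin (t + 1), ((2 ^ a i : ℕ) : ℝ) = 2 ^ (∑ i, a i) := by
        push_cast
        rw [prod_pow_eq_pow_sum]
      rw [h5, prod_const, card_univ, Fintype.card_fin]
      have h6 : L * (N : ℝ) ^ t / 2 ^ (∑ i, a i) *
          ((∏ i, ((max 1 (cabs (h i)) : ℕ) : ℝ)) * 2 ^ (∑ i, a i) / N ^ (t + 1)) =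
          (L * ∏ i, ((max 1 (cabs (h i)) : ℕ) : ℝ)) / N := by
        rw [pow_succ]
        field_simp
      rw [h6, le_div_iff₀ hN, one_mul]
      exact h2
    have h7 : 0 ≤ ∏ i, beta N (2 ^ a i) (h i) := prod_nonneg fun i _ => beta_nonneg _ _ _
    calc ∏ i, beta N (2 ^ a i) (h i) = (∏ i, beta N (2 ^ a i) (h i)) * 1 := by ring
      _ ≤ (∏ i, beta N (2 ^ a i) (h i)) * (√(L * N ^ t / 2 ^ (∑ i, a i)) *
        √(∏ i, ((max 1 (cabs (h i)) : ℕ) * ((2 ^ a i : ℕ) : ℝ) / N))) :=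
          mul_le_mul_of_nonneg_left h4 h7
      _ = _ := by ring
  calc _ ≤ ∑ g ∈ univ.filter (fun g : Fin t → ZMod N => Good L g),
        √(L * N ^ t / 2 ^ (∑ i, a i)) *
        (N / (N : ℝ) ^ (t + 1) * relSum (ext g) (fun h => ∏ i, f i (h i))) := sum_le_sum h1
    _ ≤ ∑ g : Fin t → ZMod N, √(L * N ^ t / 2 ^ (∑ i, a i)) *
        (N / (N : ℝ) ^ (t + 1) * relSum (ext g) (fun h => ∏ i, f i (h i))) := by
        apply sum_le_sum_of_subset_of_nonneg (filter_subset _ _)
        intro g _ _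
        refine mul_nonneg (Real.sqrt_nonneg _) (mul_nonneg (by positivity) ?_)
        exact relSum_nonneg _ _ fun h => prod_nonneg fun i _ =>
          mul_nonneg (beta_nonneg _ _ _) (Real.sqrt_nonneg _)
    _ ≤ _ := by
        rw [← mul_sum]
        apply mul_le_mul_of_nonneg_left _ (Real.sqrt_nonneg _)
        apply avg_gen hB2 f
        · intro i m
          exact mul_nonneg (beta_nonneg _ _ _) (Real.sqrt_nonneg _)
        · intro i
          exact hA3 N _ Nat.one_le_two_pow (ha i)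

theorem geo_sum (J n : ℕ) : ∑ j ∈ range n, min 1 (√(2 ^ J / 2 ^ j : ℝ)) ≤ J + 4 := by
  have hr0 : 0 ≤ √(1 / 2 : ℝ) := Real.sqrt_nonneg _
  have hr : √(1 / 2 : ℝ) ≤ 3 / 4 := by
    rw [Real.sqrt_le_left (by norm_num)]
    norm_num
  have h1 : ∀ j, min 1 (√(2 ^ (J + j) / 2 ^ j : ℝ)) ≤ 1 := fun j => min_le_left _ _
  have h2 : ∀ j, √(2 ^ J / 2 ^ (J + j) : ℝ) = √(1 / 2) ^ j := by
    intro j
    rw [Real.sqrt_eq_iff_mul_self_eq (by positivity) (pow_nonneg hr0 j), ← mul_pow,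
      Real.mul_self_sqrt (by norm_num), pow_add, one_div, inv_pow]
    field_simp
  calc ∑ j ∈ range n, min 1 (√(2 ^ J / 2 ^ j : ℝ)) ≤
      ∑ j ∈ range (J + n), min 1 (√(2 ^ J / 2 ^ j : ℝ)) := by
        apply sum_le_sum_of_subset_of_nonneg
        · intro j hj
          rw [mem_range] at hj ⊢
          omega
        · intro j _ _
          exact le_min (by norm_num) (Real.sqrt_nonneg _)
    _ ≤ ∑ _j ∈ range J, (1 : ℝ) + ∑ j ∈ range n, √(1 / 2 : ℝ) ^ j := by
        rw [sum_range_add]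
        apply add_le_add
        · exact sum_le_sum fun j _ => min_le_left _ _
        · apply sum_le_sum
          intro j _
          rw [← h2]
          exact min_le_right _ _
    _ ≤ J + 4 := by
        rw [sum_const, card_range, nsmul_eq_mul, mul_one]
        have h3 : ∑ j ∈ range n, √(1 / 2 : ℝ) ^ j ≤ (1 - √(1 / 2))⁻¹ := by
          have h4 := geom_sum_mul_neg (√(1 / 2 : ℝ)) n
          have h5 : 0 < 1 - √(1 / 2 : ℝ) := by linarith
          rw [← one_div, le_div_iff₀ h5, h4]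
          have : 0 ≤ √(1 / 2 : ℝ) ^ n := pow_nonneg hr0 n
          linarith
        have h6 : (1 - √(1 / 2 : ℝ))⁻¹ ≤ 4 := by
          rw [inv_le_comm₀ (by linarith) (by norm_num)]
          linarith
        linarith

open Classical in
theorem avg_scales (hA2' : StA2) (hA3 : StA3) (hB2 : StB2) (A : ℕ) (hA : 2 ^ A ≤ N)
    (a' : Fin t → ℕ) (ha : ∀ i, a' i ≤ A) (J : ℕ) :
    ∑ g ∈ univ.filter (fun g : Fin t → ZMod N => Good (2 ^ J) g),
      ∑ a ∈ Ico (astar N t A a') (A + 1), Ev g (Fin.cons a a') ≤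
      (J + 4) * (N ^ t * 20 ^ (t + 1)) := by
  have hN : (0 : ℝ) < N := by
    have := (Fact.out : N.Prime).pos
    exact_mod_cast this
  rw [sum_comm]
  set as := astar N t A a' with has
  have hasA : as ≤ A := astar_le N t A a'
  set C : ℝ := N ^ t * 20 ^ (t + 1) with hC
  have hC0 : 0 ≤ C := by positivity
  have hpow : ∀ a, a ≤ A → ∀ i, 2 ^ ((Fin.cons a a' : Fin (t + 1) → ℕ) i) ≤ N := by
    intro a haA i
    refine le_trans (Nat.pow_le_pow_right (by norm_num) ?_) hA
    refine Fin.cases ?_ (fun j => ?_) i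
    · simpa using haA
    · simpa using ha j
  have hle1 : ∀ a, a ≤ A → ∑ g ∈ univ.filter (fun g : Fin t → ZMod N => Good (2 ^ J) g),
      Ev g (Fin.cons a a') ≤ C := by
    intro a haA
    calc _ ≤ ∑ g : Fin t → ZMod N, Ev g (Fin.cons a a') :=
          sum_le_sum_of_subset_of_nonneg (filter_subset _ _) fun g _ _ => Ev_nonneg _ _
      _ ≤ C := avg_one hA2' hB2 _ (hpow a haA)
  by_cases hex : ∃ a, a ≤ A ∧ N ^ t ≤ 2 ^ (a + ∑ i, a' i)
  · have hfind : N ^ t ≤ 2 ^ (as + ∑ i, a' i) := by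
      have : as = Nat.find hex := by
        rw [has]
        unfold astar
        rw [dif_pos hex]
      rw [this]
      exact (Nat.find_spec hex).2
    have hmain : ∀ j ∈ range (A + 1 - as),
        ∑ g ∈ univ.filter (fun g : Fin t → ZMod N => Good (2 ^ J) g),
          Ev g (Fin.cons (as + j) a') ≤ min 1 (√(2 ^ J / 2 ^ j : ℝ)) * C := by
      intro j hj
      have hj' : as + j ≤ A := by
        have := mem_range.1 hj
        omega
      rw [min_mul_of_nonneg _ _ hC0, one_mul]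
      apply le_min (hle1 _ hj')
      refine (avg_good hA3 hB2 _ (hpow _ hj') (2 ^ J) (by positivity)).trans ?_
      apply mul_le_mul_of_nonneg_right _ hC0
      apply Real.sqrt_le_sqrt
      rw [Fin.sum_univ_succ]
      simp only [Fin.cons_zero, Fin.cons_succ]
      have h1 : (N : ℝ) ^ t ≤ 2 ^ (as + ∑ i, a' i) := by exact_mod_cast hfind
      have h2 : (2 : ℝ) ^ (as + j + ∑ i, a' i) = 2 ^ (as + ∑ i, a' i) * 2 ^ j := by
        rw [← pow_add]
        congr 1
        ring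
      rw [h2, div_le_div_iff₀ (by positivity) (by positivity)]
      calc (2 : ℝ) ^ J * N ^ t * 2 ^ j ≤ 2 ^ J * 2 ^ (as + ∑ i, a' i) * 2 ^ j := by gcongr
        _ = _ := by ring
    rw [Finset.sum_Ico_eq_sum_range]
    calc _ ≤ ∑ j ∈ range (A + 1 - as), min 1 (√(2 ^ J / 2 ^ j : ℝ)) * C := sum_le_sum hmain
      _ ≤ _ := by
        rw [← sum_mul]
        exact mul_le_mul_of_nonneg_right (geo_sum J _) hC0
  · have hA' : as = A := by
      rw [has]
      unfold astar
      rw [dif_neg hex]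
    rw [hA', Finset.sum_Ico_eq_sum_range]
    have : A + 1 - A = 1 := by omega
    rw [this, sum_range_one, add_zero]
    refine (hle1 A le_rfl).trans ?_
    have : (1 : ℝ) ≤ J + 4 := by
      have : (0 : ℝ) ≤ J := Nat.cast_nonneg _
      linarith
    calc C = 1 * C := by ring
      _ ≤ _ := mul_le_mul_of_nonneg_right this hC0

open Classical in
theorem avg_EE (hA2' : StA2) (hA3 : StA3) (hB2 : StB2) (A : ℕ) (hA : 2 ^ A ≤ N) (J : ℕ) :
    ∑ g ∈ univ.filter (fun g : Fin t → ZMod N => Good (2 ^ J) g), EE A g ≤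
      (3 * (A + 1)) ^ t * (5 * ((J + 4) * (N ^ t * 20 ^ (t + 1))) + 16 * 3 ^ t * N ^ t) := by
  unfold EE
  rw [sum_comm]
  have hcard : (Fintype.piFinset (fun _ : Fin t => range (A + 1) ×ˢ
      (univ : Finset (Fin 3)))).card = (3 * (A + 1)) ^ t := by
    rw [Fintype.card_piFinset]
    simp [mul_comm]
  have h1 : ∀ p ∈ Fintype.piFinset (fun _ : Fin t => range (A + 1) ×ˢ (univ : Finset (Fin 3))),
      ∑ g ∈ univ.filter (fun g : Fin t → ZMod N => Good (2 ^ J) g),
        (5 * ∑ a ∈ Ico (astar N t A (fun i => (p i).1)) (A + 1),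
          Ev g (Fin.cons a (fun i => (p i).1)) + 16 * 3 ^ t) ≤
      5 * ((J + 4) * (N ^ t * 20 ^ (t + 1))) + 16 * 3 ^ t * N ^ t := by
    intro p hp
    have hp' : ∀ i, (p i).1 ≤ A := by
      intro i
      have := (Fintype.mem_piFinset.1 hp) i
      rw [mem_product] at this
      have := mem_range.1 this.1
      omega
    rw [sum_add_distrib, ← mul_sum]
    apply add_le_add
    · apply mul_le_mul_of_nonneg_left _ (by norm_num)
      exact avg_scales hA2' hA3 hB2 A hA _ hp' J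
    · rw [sum_const, nsmul_eq_mul, mul_comm]
      apply mul_le_mul_of_nonneg_left _ (by positivity)
      have h2 := card_filter_le (univ : Finset (Fin t → ZMod N)) (fun g => Good (2 ^ J) g)
      have h3 : (univ : Finset (Fin t → ZMod N)).card = N ^ t := by
        rw [card_univ, Fintype.card_fun, ZMod.card, Fintype.card_fin]
      rw [h3] at h2
      exact_mod_cast h2
  calc _ ≤ _ := sum_le_sum h1
    _ = _ := by
      rw [sum_const, hcard, nsmul_eq_mul]
      push_cast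
      ring

open Classical in
theorem bad_count (hB2 : StB2) (hB3 : StB3) (L : ℝ) (hL : 0 < L) :
    L * ((univ.filter (fun g : Fin t → ZMod N => ¬ Good L g)).card : ℝ) ≤
      N ^ t * (3 + 2 * Real.log N) ^ (t + 1) := by
  have hN : (0 : ℝ) < N := by
    have := (Fact.out : N.Prime).pos
    exact_mod_cast this
  set Φ : (Fin (t + 1) → ZMod N) → ℝ := fun h => ∏ i, (1 / ((max 1 (cabs (h i)) : ℕ) : ℝ)) with hΦ
  have hΦ0 : ∀ h, 0 ≤ Φ h := fun h => prod_nonneg fun i _ => by positivity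
  have h1 := hB2 N t Φ hΦ0
  rw [hΦ, sum_prod_eq (fun _ m => (1 / ((max 1 (cabs m) : ℕ) : ℝ)))] at h1
  have h2 : ∏ _i : Fin (t + 1), ∑ m : ZMod N, (1 / ((max 1 (cabs m) : ℕ) : ℝ)) ≤
      (3 + 2 * Real.log N) ^ (t + 1) := by
    rw [prod_const, card_univ, Fintype.card_fin]
    exact pow_le_pow_left₀ (sum_nonneg fun m _ => by positivity) (hB3 N) _
  have h3 : ∀ g ∈ univ.filter (fun g : Fin t → ZMod N => ¬ Good L g),
      L ≤ N * relSum (ext g) Φ := by
    intro g hg
    have hg' : ¬ Good L g := (mem_filter.1 hg).2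
    unfold Good at hg'
    push Not at hg'
    obtain ⟨h, hr, hlt⟩ := hg'
    have hP : 0 < ∏ i, ((max 1 (cabs (h i)) : ℕ) : ℝ) := by
      apply prod_pos
      intro i _
      have : 1 ≤ max 1 (cabs (h i)) := le_max_left _ _
      exact_mod_cast this
    have h4 : Φ h ≤ relSum (ext g) Φ := by
      unfold relSum
      exact single_le_sum (f := Φ) (fun h _ => hΦ0 h) (mem_filter.2 ⟨mem_univ _, hr⟩)
    have h5 : Φ h = 1 / ∏ i, ((max 1 (cabs (h i)) : ℕ) : ℝ) := by
      rw [hΦ]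
      simp only
      rw [prod_div_distrib]
      simp
    have h6 : L < N * Φ h := by
      rw [h5, mul_one_div, lt_div_iff₀ hP]
      exact hlt
    have h7 : (N : ℝ) * Φ h ≤ N * relSum (ext g) Φ := mul_le_mul_of_nonneg_left h4 hN.le
    linarith
  calc L * ((univ.filter (fun g : Fin t → ZMod N => ¬ Good L g)).card : ℝ)
      = ∑ _g ∈ univ.filter (fun g : Fin t → ZMod N => ¬ Good L g), L := by
        rw [sum_const, nsmul_eq_mul]
        ring
    _ ≤ ∑ g ∈ univ.filter (fun g : Fin t → ZMod N => ¬ Good L g), N * relSum (ext g) Φ :=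
        sum_le_sum h3
    _ ≤ ∑ g : Fin t → ZMod N, N * relSum (ext g) Φ :=
        sum_le_sum_of_subset_of_nonneg (filter_subset _ _) fun g _ _ =>
          mul_nonneg hN.le (relSum_nonneg _ _ hΦ0)
    _ = N * ∑ g : Fin t → ZMod N, relSum (ext g) Φ := by rw [mul_sum]
    _ ≤ N ^ t * ∏ _i : Fin (t + 1), ∑ m : ZMod N, (1 / ((max 1 (cabs m) : ℕ) : ℝ)) := h1
    _ ≤ _ := mul_le_mul_of_nonneg_left h2 (by positivity)

end

end Pool.Agent.L0h76.H
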