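import Pool.Agent.L0h76.H.E1

/-!
# Existence of a good `g`
-/

set_option autoImplicit false

namespace Pool.Agent.L0h76.H

open Finset

section
variable {N t : ℕ} [Fact N.Prime]

/-- multiplication by a unit permutes the vectors -/
def mulEquiv' (q : (ZMod N)ˣ) : (Fin t → ZMod N) ≃ (Fin t → ZMod N) where
  toFun g i := q * g i
  invFun g i := (q⁻¹ : (ZMod N)ˣ) * g i
  left_inv g := by
    funext i
    change ((q⁻¹ : (ZMod N)ˣ) : ZMod N) * ((q : ZMod N) * g i) = g i
    rw [← mul_assoc, Units.inv_mul, one_mul]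
  right_inv g := by
    funext i
    change (q : ZMod N) * (((q⁻¹ : (ZMod N)ˣ) : ZMod N) * g i) = g i
    rw [← mul_assoc, Units.mul_inv, one_mul]

theorem mulEquiv'_apply (q : (ZMod N)ˣ) (g : Fin t → ZMod N) :
    mulEquiv' q g = fun i => (q : ZMod N) * g i := rfl

open Classical in
theorem bad_mul (hB2 : StB2) (hB3 : StB3) (L : ℝ) (hL : 0 < L) (q : (ZMod N)ˣ) :
    L * ((univ.filter (fun g : Fin t → ZMod N => ¬ Good L (fun i => (q : ZMod N) * g i))).card : ℝ) ≤
      N ^ t * (3 + 2 * Real.log N) ^ (t + 1) := by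
  have h := bad_count (N := N) (t := t) hB2 hB3 L hL
  have e : (univ.filter (fun g : Fin t → ZMod N => ¬ Good L (fun i => (q : ZMod N) * g i))).card =
      (univ.filter (fun g : Fin t → ZMod N => ¬ Good L g)).card := by
    apply card_equiv (mulEquiv' q)
    intro g
    rw [mem_filter, mem_filter, mulEquiv'_apply]
    simp only [mem_univ, true_and]
  rw [e]
  exact h

open Classical in
theorem avg_mul (hA2' : StA2) (hA3 : StA3) (hB2 : StB2) (A : ℕ) (hA : 2 ^ A ≤ N) (J : ℕ)
    (q : (ZMod N)ˣ) :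
    ∑ g ∈ univ.filter (fun g : Fin t → ZMod N => Good (2 ^ J) (fun i => (q : ZMod N) * g i)),
      EE A (fun i => (q : ZMod N) * g i) ≤
      (3 * (A + 1)) ^ t * (5 * ((J + 4) * (N ^ t * 20 ^ (t + 1))) + 16 * 3 ^ t * N ^ t) := by
  refine le_trans (le_of_eq ?_) (avg_EE hA2' hA3 hB2 A hA J)
  apply sum_equiv (mulEquiv' q)
  · intro g
    rw [mem_filter, mem_filter, mulEquiv'_apply]
    simp only [mem_univ, true_and]
  · intro g _
    rfl

theorem EE_nonneg (A : ℕ) (g : Fin t → ZMod N) : 0 ≤ EE A g := by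
  unfold EE
  exact sum_nonneg fun p _ => add_nonneg (mul_nonneg (by norm_num)
    (sum_nonneg fun a _ => Ev_nonneg _ _)) (by positivity)

/-- existence of `g` good for all multipliers of a finite family -/
theorem exists_g (hA2' : StA2) (hA3 : StA3) (hB2 : StB2) (hB3 : StB3)
    (A : ℕ) (hA : 2 ^ A ≤ N) (J : ℕ)
    {I : Type} (Λ : Finset I) (q : I → (ZMod N)ˣ)
    (hJ : 2 * (Λ.card * (3 + 2 * Real.log N) ^ (t + 1)) < 2 ^ J) :
    ∃ g : Fin t → ZMod N, (∀ l ∈ Λ, Good (2 ^ J) (fun i => (q l : ZMod N) * g i)) ∧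
      ∑ l ∈ Λ, EE A (fun i => (q l : ZMod N) * g i) ≤
        2 * (Λ.card * ((3 * (A + 1)) ^ t * (5 * ((J + 4) * 20 ^ (t + 1)) + 16 * 3 ^ t))) := by
  classical
  have hN : (0 : ℝ) < N := by
    have := (Fact.out : N.Prime).pos
    exact_mod_cast this
  set G : Finset (Fin t → ZMod N) := univ.filter (fun g =>
    ∀ l ∈ Λ, Good (2 ^ J) (fun i => (q l : ZMod N) * g i)) with hG
  set X : ℝ := (3 * (A + 1)) ^ t * (5 * ((J + 4) * 20 ^ (t + 1)) + 16 * 3 ^ t) with hX
  have hX0 : 0 ≤ X := by positivity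
  have htot : ((univ : Finset (Fin t → ZMod N)).card : ℝ) = N ^ t := by
    rw [card_univ, Fintype.card_fun, ZMod.card, Fintype.card_fin]
    push_cast
    rfl
  -- the complement is small
  have hcompl : ((univ.filter (fun g : Fin t → ZMod N =>
      ¬ ∀ l ∈ Λ, Good (2 ^ J) (fun i => (q l : ZMod N) * g i))).card : ℝ) < N ^ t / 2 := by
    have h1 : (univ.filter (fun g : Fin t → ZMod N =>
        ¬ ∀ l ∈ Λ, Good (2 ^ J) (fun i => (q l : ZMod N) * g i))) ⊆
        Λ.biUnion (fun l => univ.filter (fun g : Fin t → ZMod N =>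
          ¬ Good (2 ^ J) (fun i => (q l : ZMod N) * g i))) := by
      intro g hg
      have := (mem_filter.1 hg).2
      push Not at this
      obtain ⟨l, hl, h⟩ := this
      exact mem_biUnion.2 ⟨l, hl, mem_filter.2 ⟨mem_univ _, h⟩⟩
    have h2 : ((univ.filter (fun g : Fin t → ZMod N =>
        ¬ ∀ l ∈ Λ, Good (2 ^ J) (fun i => (q l : ZMod N) * g i))).card : ℝ) ≤
        ∑ l ∈ Λ, ((univ.filter (fun g : Fin t → ZMod N =>
          ¬ Good (2 ^ J) (fun i => (q l : ZMod N) * g i))).card : ℝ) := by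
      exact_mod_cast (card_le_card h1).trans card_biUnion_le
    have h3 : (2 : ℝ) ^ J * ∑ l ∈ Λ, ((univ.filter (fun g : Fin t → ZMod N =>
          ¬ Good (2 ^ J) (fun i => (q l : ZMod N) * g i))).card : ℝ) ≤
        Λ.card * (N ^ t * (3 + 2 * Real.log N) ^ (t + 1)) := by
      rw [mul_sum]
      calc _ ≤ ∑ _l ∈ Λ, (N ^ t * (3 + 2 * Real.log N) ^ (t + 1) : ℝ) :=
            sum_le_sum fun l _ => bad_mul hB2 hB3 (2 ^ J) (by positivity) (q l)
        _ = _ := by rw [sum_const, nsmul_eq_mul]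
    have h4 : (2 : ℝ) ^ J * ((univ.filter (fun g : Fin t → ZMod N =>
        ¬ ∀ l ∈ Λ, Good (2 ^ J) (fun i => (q l : ZMod N) * g i))).card : ℝ) <
        2 ^ J * (N ^ t / 2) := by
      calc _ ≤ (2 : ℝ) ^ J * _ := mul_le_mul_of_nonneg_left h2 (by positivity)
        _ ≤ _ := h3
        _ = (Λ.card * (3 + 2 * Real.log N) ^ (t + 1)) * N ^ t := by ring
        _ < (2 ^ J / 2) * N ^ t := by
          apply mul_lt_mul_of_pos_right _ (by positivity)
          linarith
        _ = _ := by ring
    exact lt_of_mul_lt_mul_left h4 (by positivity)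
  have hGcard : (N : ℝ) ^ t / 2 < G.card := by
    have h1 := card_filter_add_card_filter_not (s := (univ : Finset (Fin t → ZMod N)))
      (fun g => ∀ l ∈ Λ, Good (2 ^ J) (fun i => (q l : ZMod N) * g i))
    have h2 : (G.card : ℝ) + ((univ.filter (fun g : Fin t → ZMod N =>
      ¬ ∀ l ∈ Λ, Good (2 ^ J) (fun i => (q l : ZMod N) * g i))).card : ℝ) = N ^ t := by
      rw [← htot, ← h1]
      push_cast
      rfl
    linarith
  have hsum : ∑ g ∈ G, ∑ l ∈ Λ, EE A (fun i => (q l : ZMod N) * g i) ≤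
      Λ.card * (X * N ^ t) := by
    rw [sum_comm]
    calc _ ≤ ∑ _l ∈ Λ, (X * N ^ t) := by
          apply sum_le_sum
          intro l hl
          calc _ ≤ ∑ g ∈ univ.filter (fun g : Fin t → ZMod N =>
                Good (2 ^ J) (fun i => (q l : ZMod N) * g i)),
                EE A (fun i => (q l : ZMod N) * g i) := by
                apply sum_le_sum_of_subset_of_nonneg
                · intro g hg
                  exact mem_filter.2 ⟨mem_univ _, (mem_filter.1 hg).2 l hl⟩
                · intro g _ _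
                  exact EE_nonneg _ _
            _ ≤ _ := avg_mul hA2' hA3 hB2 A hA J (q l)
            _ = _ := by
              rw [hX]
              ring
      _ = _ := by rw [sum_const, nsmul_eq_mul]
  by_contra hcon
  push Not at hcon
  have hGne : G.Nonempty := by
    rw [← card_pos]
    have : (0 : ℝ) < G.card := lt_trans (by positivity) hGcard
    exact_mod_cast this
  have h5 : ∑ _g ∈ G, 2 * (Λ.card * X) < ∑ g ∈ G, ∑ l ∈ Λ, EE A (fun i => (q l : ZMod N) * g i) := by
    apply sum_lt_sum_of_nonempty hGne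
    intro g hg
    exact hcon g (mem_filter.1 hg).2
  rw [sum_const, nsmul_eq_mul] at h5
  have h6 : (Λ.card : ℝ) * (X * N ^ t) ≤ G.card * (2 * (Λ.card * X)) := by
    have h7 : 0 ≤ (Λ.card : ℝ) * X := by positivity
    nlinarith [mul_le_mul_of_nonneg_right hGcard.le h7]
  linarith

/-- a good vector has no zero entries -/
theorem good_ne_zero (L : ℝ) (hL : L < N) (g : Fin t → ZMod N) (hg : Good L g) (i : Fin t) :
    g i ≠ 0 := by
  intro h0
  have hNp := (Fact.out : N.Prime)
  haveI : Fact (1 < N) := ⟨hNp.one_lt⟩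
  have hrel : Rel (ext g) (Pi.single i.succ 1) := by
    refine ⟨?_, ?_⟩
    · intro h
      have := congrFun h i.succ
      simp at this
    · rw [sum_eq_single i.succ]
      · simp [ext, h0]
      · intro j _ hj
        simp [Pi.single_eq_of_ne hj]
      · intro h
        exact absurd (mem_univ _) h
  have h1 := hg _ hrel
  have h2 : ∏ j, ((max 1 (cabs ((Pi.single i.succ 1 : Fin (t + 1) → ZMod N) j)) : ℕ) : ℝ) = 1 := by
    apply prod_eq_one
    intro j _
    by_cases hj : j = i.succ
    · subst hj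
      simp only [Pi.single_eq_same, cabs]
      have : (1 : ZMod N).valMinAbs.natAbs ≤ 1 := by
        have h3 := ZMod.natAbs_valMinAbs_le (1 : ZMod N)
        have h4 := ZMod.valMinAbs_natAbs_eq_min (1 : ZMod N)
        rw [h4, ZMod.val_one]
        exact min_le_left _ _
      have : max 1 ((1 : ZMod N).valMinAbs.natAbs) = 1 := max_eq_left this
      rw [this]
      norm_num
    · rw [Pi.single_eq_of_ne hj]
      simp [cabs]
  rw [h2, mul_one] at h1
  linarith

end

end Pool.Agent.L0h76.H
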