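import Pool.Agent.L0h76.H.E2

/-!
# The main bound
-/

set_option autoImplicit false

namespace Pool.Agent.L0h76.H

open Finset

open Classical in
/-- number of `n < N` with `z n` in the box `[u, v)` -/
noncomputable def boxCount {ι : Type} (N : ℕ) (z : ℕ → ι → ℝ) (u v : ι → ℝ) : ℕ :=
  ((range N).filter (fun n => ∀ i, u i ≤ z n i ∧ z n i < v i)).card

theorem clog_bound (N b : ℕ) (hN : 2 ≤ N) (hb : 2 ≤ b) :
    ((Nat.clog b N + 1 : ℕ) : ℝ) ≤ 5 * Real.log N := by
  have hl2 : (0.69 : ℝ) < Real.log 2 := by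
    have := Real.log_two_gt_d9
    linarith
  have hx : Real.log 2 ≤ Real.log N := Real.log_le_log (by norm_num) (by exact_mod_cast hN)
  have h1 : Nat.clog b N ≤ Nat.clog 2 N := Nat.clog_anti_left (by norm_num) hb
  have h2 : Nat.clog 2 N ≤ Nat.log 2 N + 1 := by
    apply Nat.clog_le_of_le_pow
    exact (Nat.lt_pow_succ_log_self (by norm_num) N).le
  have h3 : (Nat.log 2 N : ℝ) * Real.log 2 ≤ Real.log N := by
    rw [← Real.log_pow]
    apply Real.log_le_log (by positivity)
    exact_mod_cast Nat.pow_log_le_self 2 (by omega)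
  have h4 : ((Nat.clog b N + 1 : ℕ) : ℝ) ≤ (Nat.log 2 N : ℝ) + 2 := by
    have : Nat.clog b N + 1 ≤ Nat.log 2 N + 2 := by omega
    exact_mod_cast this
  nlinarith

theorem log_bound (N : ℕ) (hN : 2 ≤ N) : ((Nat.log 2 N : ℝ) + 1) ≤ 3 * Real.log N := by
  have hl2 : (0.69 : ℝ) < Real.log 2 := by
    have := Real.log_two_gt_d9
    linarith
  have hx : Real.log 2 ≤ Real.log N := Real.log_le_log (by norm_num) (by exact_mod_cast hN)
  have h3 : (Nat.log 2 N : ℝ) * Real.log 2 ≤ Real.log N := by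
    rw [← Real.log_pow]
    apply Real.log_le_log (by positivity)
    exact_mod_cast Nat.pow_log_le_self 2 (by omega)
  nlinarith

/-- choice of `J` -/
theorem exists_J (s t N : ℕ) (hN : 2 ≤ N) (c : ℝ) (hc0 : 0 ≤ c) (hc : c ≤ (5 * Real.log N) ^ s) :
    ∃ J : ℕ, 2 * (c * (3 + 2 * Real.log N) ^ (t + 1)) < 2 ^ J ∧
      (2 : ℝ) ^ J ≤ (4 * 5 ^ s * 7 ^ (t + 1) + 2 * 2 ^ (s + t + 1)) * Real.log N ^ (s + t + 1) := by
  have hl2 : (0.69 : ℝ) < Real.log 2 := by
    have := Real.log_two_gt_d9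
    linarith
  have hx : Real.log 2 ≤ Real.log N := Real.log_le_log (by norm_num) (by exact_mod_cast hN)
  set x := Real.log N with hxd
  set y : ℝ := 2 * (c * (3 + 2 * x) ^ (t + 1)) with hy
  have hy0 : 0 ≤ y := by
    have : 0 ≤ 3 + 2 * x := by linarith
    positivity
  set m := ⌊y⌋₊ + 1 with hm
  have hm1 : y < m := by
    rw [hm]
    push_cast
    exact Nat.lt_floor_add_one y
  have hm2 : (m : ℝ) ≤ y + 1 := by
    rw [hm]
    push_cast
    have := Nat.floor_le hy0
    linarith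
  have hy1 : y ≤ 2 * 5 ^ s * 7 ^ (t + 1) * x ^ (s + t + 1) := by
    have h1 : (3 + 2 * x) ^ (t + 1) ≤ (7 * x) ^ (t + 1) :=
      pow_le_pow_left₀ (by linarith) (by linarith) _
    calc y ≤ 2 * ((5 * x) ^ s * (7 * x) ^ (t + 1)) := by
          rw [hy]
          have h2 : 0 ≤ (3 + 2 * x) ^ (t + 1) := pow_nonneg (by linarith) _
          have h3 : 0 ≤ (5 * x) ^ s := pow_nonneg (by linarith) _
          have := mul_le_mul hc h1 h2 h3
          linarith
      _ = _ := by
          rw [mul_pow, mul_pow]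
          ring
  have h1x : (1 : ℝ) ≤ (2 * x) ^ (s + t + 1) := one_le_pow₀ (by linarith)
  refine ⟨Nat.clog 2 m, ?_, ?_⟩
  · have h1 : m ≤ 2 ^ Nat.clog 2 m := Nat.le_pow_clog (by norm_num) m
    calc y < m := hm1
      _ ≤ _ := by exact_mod_cast h1
  · have h2 : 2 ^ Nat.clog 2 m ≤ 2 * m := by
      rcases Nat.eq_or_lt_of_le (show 1 ≤ m by omega) with h | h
      · rw [← h]
        simp
      · have h3 := Nat.pow_pred_clog_lt_self (b := 2) (by norm_num) (x := m) (by omega)
        have h4 : 0 < Nat.clog 2 m := Nat.clog_pos (by norm_num) (by omega)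
        have h5 : 2 ^ Nat.clog 2 m = 2 * 2 ^ (Nat.clog 2 m).pred := by
          rw [← pow_succ']
          congr 1
          rw [Nat.pred_eq_sub_one]
          omega
        omega
    calc (2 : ℝ) ^ Nat.clog 2 m ≤ 2 * m := by exact_mod_cast h2
      _ ≤ 2 * (y + 1) := by linarith
      _ ≤ 2 * (2 * 5 ^ s * 7 ^ (t + 1) * x ^ (s + t + 1) + (2 * x) ^ (s + t + 1)) := by linarith
      _ = _ := by
        rw [mul_pow]
        ring

theorem J_bound (d J : ℕ) (C1 x : ℝ) (hC1 : 1 ≤ C1) (hx : Real.log 3 ≤ x)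
    (h : (2 : ℝ) ^ J ≤ C1 * x ^ d) :
    (J : ℝ) + 4 ≤ ((Real.log C1 / Real.log 2 + 4) / Real.log (Real.log 3) + d / Real.log 2) *
      Real.log x := by
  have hl2 : (0 : ℝ) < Real.log 2 := Real.log_pos (by norm_num)
  have hl3 : 1 < Real.log 3 := by
    rw [Real.lt_log_iff_exp_lt (by norm_num)]
    have := Real.exp_one_lt_d9
    linarith
  have hll3 : 0 < Real.log (Real.log 3) := Real.log_pos hl3
  have hx0 : 0 < x := by linarith
  have hlx : Real.log (Real.log 3) ≤ Real.log x := Real.log_le_log (by linarith) hx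
  have h1 : (J : ℝ) * Real.log 2 ≤ Real.log C1 + d * Real.log x := by
    rw [← Real.log_pow, ← Real.log_pow, ← Real.log_mul (by positivity) (by positivity)]
    exact Real.log_le_log (by positivity) h
  have h2 : (J : ℝ) ≤ Real.log C1 / Real.log 2 + d / Real.log 2 * Real.log x := by
    have : (J : ℝ) ≤ (Real.log C1 + d * Real.log x) / Real.log 2 := by
      rw [le_div_iff₀ hl2]
      exact h1
    calc (J : ℝ) ≤ _ := this
      _ = _ := by ring
  have h3 : 0 ≤ Real.log C1 / Real.log 2 + 4 := by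
    have := Real.log_nonneg hC1
    positivity
  have h4 : Real.log C1 / Real.log 2 + 4 ≤
      (Real.log C1 / Real.log 2 + 4) / Real.log (Real.log 3) * Real.log x := by
    rw [div_mul_eq_mul_div, le_div_iff₀ hll3]
    exact mul_le_mul_of_nonneg_left hlx h3
  rw [add_mul]
  linarith

/-- the bound for large `N` -/
theorem large (hA1 : StA1) (hA2' : StA2) (hA3 : StA3) (hB1 : StB1) (hB2 : StB2) (hB3 : StB3)
    (hD : StD) (s t : ℕ) (b : Fin s → ℕ) (hb : ∀ j, (b j).Prime)
    (hinj : Function.Injective b) :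
    ∃ (C : ℝ) (N0 : ℕ), ∀ N : ℕ, N.Prime → (∀ j, b j ≠ N) → N0 ≤ N →
      ∃ g : Fin t → ℕ, (∀ i, 1 ≤ g i ∧ g i ≤ N - 1) ∧
        ∀ u v : Unit ⊕ (Fin s ⊕ Fin t) → ℝ, (∀ i, 0 ≤ u i) → (∀ i, u i ≤ v i) → (∀ i, v i ≤ 1) →
          |(boxCount N (pt b N g) u v : ℝ) - N * ∏ i, (v i - u i)| ≤
            C * (Real.log N ^ (s + t) * Real.log (Real.log N)) := by
  classical
  set C1 : ℝ := 4 * 5 ^ s * 7 ^ (t + 1) + 2 * 2 ^ (s + t + 1) with hC1
  have hC11 : 1 ≤ C1 := by
    have h1 : (1 : ℝ) ≤ 5 ^ s := one_le_pow₀ (by norm_num)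
    have h2 : (1 : ℝ) ≤ 7 ^ (t + 1) := one_le_pow₀ (by norm_num)
    have h3 : (0 : ℝ) < 2 ^ (s + t + 1) := by positivity
    nlinarith [mul_le_mul h1 h2 (by norm_num) (by positivity)]
  have hev : ∀ᶠ N : ℕ in Filter.atTop, C1 * Real.log N ^ (s + t + 1) < N := by
    have h1 : (fun x : ℝ => C1 * Real.log x ^ (s + t + 1)) =o[Filter.atTop] (fun x : ℝ => x) :=
      Real.isLittleO_pow_log_id_atTop.const_mul_left C1
    have h2 := (h1.comp_tendsto tendsto_natCast_atTop_atTop).bound (by norm_num : (0:ℝ) < 1 / 2)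
    filter_upwards [h2, Filter.eventually_gt_atTop 0] with N h3 h4
    simp only [Function.comp, Real.norm_eq_abs] at h3
    have h5 := le_abs_self (C1 * Real.log N ^ (s + t + 1))
    have h6 : |(N : ℝ)| = N := abs_of_nonneg (Nat.cast_nonneg _)
    rw [h6] at h3
    have h7 : (0 : ℝ) < N := by exact_mod_cast h4
    linarith
  obtain ⟨N1, hN1⟩ := Filter.eventually_atTop.1 hev
  set C2 : ℝ := (Real.log C1 / Real.log 2 + 4) / Real.log (Real.log 3) +
    ((s + t + 1 : ℕ) : ℝ) / Real.log 2 with hC2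
  set K : ℝ := ∏ j, (2 * (b j : ℝ)) with hK
  have hll3 : 0 < Real.log (Real.log 3) := by
    apply Real.log_pos
    rw [Real.lt_log_iff_exp_lt (by norm_num)]
    have := Real.exp_one_lt_d9
    linarith
  refine ⟨K * (2 * (5 ^ s * (9 ^ t * (5 * (C2 * 20 ^ (t + 1)) +
    16 * 3 ^ t / Real.log (Real.log 3)))) + 5 ^ s * ((s + t + 3) / Real.log (Real.log 3))),
    max N1 3, ?_⟩
  intro N hNp hbN hN
  haveI : Fact N.Prime := ⟨hNp⟩
  haveI : NeZero N := ⟨hNp.ne_zero⟩
  have hN3 : 3 ≤ N := le_trans (le_max_right _ _) hN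
  have hx3 : Real.log 3 ≤ Real.log N := Real.log_le_log (by norm_num) (by exact_mod_cast hN3)
  have hl3 : 1 < Real.log 3 := by
    rw [Real.lt_log_iff_exp_lt (by norm_num)]
    have := Real.exp_one_lt_d9
    linarith
  set x := Real.log N with hx
  have hx1 : 1 ≤ x := by linarith
  have hlx : Real.log (Real.log 3) ≤ Real.log x := Real.log_le_log (by linarith) hx3
  have hlx0 : 0 < Real.log x := by linarith
  set Λ : Finset (Fin s → ℕ) := Fintype.piFinset (fun j => range (Nat.clog (b j) N + 1)) with hΛ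
  have hΛc : (Λ.card : ℝ) ≤ (5 * x) ^ s := by
    rw [hΛ, Fintype.card_piFinset]
    push_cast
    calc ∏ j, ((range (Nat.clog (b j) N + 1)).card : ℝ) ≤ ∏ _j : Fin s, (5 * x) := by
          apply prod_le_prod
          · intro j _
            positivity
          · intro j _
            rw [card_range]
            exact clog_bound N (b j) (by omega) (hb j).two_le
      _ = _ := by simp
  set A := Nat.log 2 N with hA
  have hA1' : 2 ^ A ≤ N := Nat.pow_log_le_self 2 (by omega)
  have hA2'' : N < 2 ^ (A + 1) := Nat.lt_pow_succ_log_self (by norm_num) N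
  obtain ⟨J, hJ1, hJ2⟩ := exists_J s t N (by omega) Λ.card (Nat.cast_nonneg _) hΛc
  have hunit : ∀ l : Fin s → ℕ, IsUnit ((∏ j, b j ^ l j : ℕ) : ZMod N) := by
    intro l
    rw [ZMod.isUnit_iff_coprime]
    apply Nat.Coprime.prod_left
    intro j _
    apply Nat.Coprime.pow_left
    exact (Nat.coprime_primes (hb j) hNp).2 (hbN j)
  set q : (Fin s → ℕ) → (ZMod N)ˣ := fun l => (hunit l).unit with hq
  have hqv : ∀ l, ((q l : (ZMod N)ˣ) : ZMod N) = ((∏ j, b j ^ l j : ℕ) : ZMod N) :=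
    fun l => (hunit l).unit_spec
  obtain ⟨g, hg1, hg2⟩ := exists_g (N := N) (t := t) hA2' hA3 hB2 hB3 A hA1' J Λ q hJ1
  have hJN : (2 : ℝ) ^ J < N := lt_of_le_of_lt hJ2 (hN1 N (le_trans (le_max_left _ _) hN))
  have hgne : ∀ i, g i ≠ 0 := by
    intro i h0
    have h1 := hg1 (fun _ => 0) (by
      rw [hΛ, Fintype.mem_piFinset]
      intro j
      simp)
    exact good_ne_zero _ hJN _ h1 i (by simp [h0])
  refine ⟨fun i => (g i).val, ?_, ?_⟩
  · intro i
    have h1 : (g i).val ≠ 0 := by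
      intro h
      exact hgne i ((ZMod.val_eq_zero _).1 h)
    have h2 := ZMod.val_lt (g i)
    change 1 ≤ (g i).val ∧ (g i).val ≤ N - 1
    omega
  · intro u v hu huv hv
    have hDl := hD s t b (fun j => (hb j).two_le) (fun i j hij =>
      (Nat.coprime_primes (hb i) (hb j)).2 (fun h => hij (hinj h))) N (fun i => (g i).val)
      (fun l => EE A (fun i => (q l : ZMod N) * g i)) (fun l => EE_nonneg _ _) (by
        intro l _
        have h1 := latBound_EE hA1 hB1 A hA1' hA2'' (fun i => (q l : ZMod N) * g i)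
        have h2 : (fun i => ((∏ j, b j ^ l j : ℕ) : ZMod N) * (((g i).val : ℕ) : ZMod N)) =
            (fun i => (q l : ZMod N) * g i) := by
          funext i
          rw [hqv, ZMod.natCast_zmod_val]
        rw [h2]
        exact h1) u v hu huv hv
    have hb1 : (boxCount N (pt b N (fun i => (g i).val)) u v : ℝ) =
        (((range N).filter (fun n => ∀ i, u i ≤ pt b N (fun i => (g i).val) n i ∧
          pt b N (fun i => (g i).val) n i < v i)).card : ℝ) := by
      unfold boxCount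
      congr!
    rw [hb1]
    refine hDl.trans ?_
    rw [← hΛ, ← hK, sum_add_distrib, sum_const, nsmul_eq_mul]
    have hK0 : 0 ≤ K := prod_nonneg fun j _ => by positivity
    rw [mul_assoc K]
    apply mul_le_mul_of_nonneg_left _ hK0
    rw [add_mul]
    have hJ3 : (J : ℝ) + 4 ≤ C2 * Real.log x := J_bound (s + t + 1) J C1 x hC11 hx3 hJ2
    have hA3' : (A : ℝ) + 1 ≤ 3 * x := log_bound N (by omega)
    have hxst : (0 : ℝ) ≤ x ^ (s + t) := by positivity
    have hone : ∀ c : ℝ, 0 ≤ c → c ≤ c / Real.log (Real.log 3) * Real.log x := by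
      intro c hc
      rw [div_mul_eq_mul_div, le_div_iff₀ hll3]
      exact mul_le_mul_of_nonneg_left hlx hc
    apply add_le_add
    · refine hg2.trans ?_
      have h1 : (3 * ((A : ℝ) + 1)) ^ t ≤ (9 * x) ^ t :=
        pow_le_pow_left₀ (by positivity) (by linarith) _
      have h2 : 5 * (((J : ℝ) + 4) * 20 ^ (t + 1)) + 16 * 3 ^ t ≤
          (5 * (C2 * 20 ^ (t + 1)) + 16 * 3 ^ t / Real.log (Real.log 3)) * Real.log x := by
        have h3 := hone (16 * 3 ^ t) (by positivity)
        have h4 : ((J : ℝ) + 4) * 20 ^ (t + 1) ≤ (C2 * Real.log x) * 20 ^ (t + 1) :=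
          mul_le_mul_of_nonneg_right hJ3 (by positivity)
        rw [add_mul]
        linarith
      have h5 : 0 ≤ 5 * (((J : ℝ) + 4) * 20 ^ (t + 1)) + 16 * 3 ^ t := by positivity
      have h6 : (3 * ((A : ℝ) + 1)) ^ t * (5 * (((J : ℝ) + 4) * 20 ^ (t + 1)) + 16 * 3 ^ t) ≤
          (9 * x) ^ t * ((5 * (C2 * 20 ^ (t + 1)) + 16 * 3 ^ t / Real.log (Real.log 3)) *
            Real.log x) := mul_le_mul h1 h2 h5 (by positivity)
      have h7 : (Λ.card : ℝ) * ((3 * ((A : ℝ) + 1)) ^ t *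
          (5 * (((J : ℝ) + 4) * 20 ^ (t + 1)) + 16 * 3 ^ t)) ≤
          (5 * x) ^ s * ((9 * x) ^ t * ((5 * (C2 * 20 ^ (t + 1)) +
            16 * 3 ^ t / Real.log (Real.log 3)) * Real.log x)) :=
        mul_le_mul hΛc h6 (by positivity) (by positivity)
      calc _ ≤ 2 * ((5 * x) ^ s * ((9 * x) ^ t * ((5 * (C2 * 20 ^ (t + 1)) +
            16 * 3 ^ t / Real.log (Real.log 3)) * Real.log x))) := by linarith
        _ = _ := by
          rw [mul_pow, mul_pow, pow_add]
          ring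
    · have h1 : (s + t + 3 : ℝ) ≤ (s + t + 3) / Real.log (Real.log 3) * Real.log x :=
        hone _ (by positivity)
      calc (Λ.card : ℝ) * (s + t + 3) ≤ (5 * x) ^ s *
            ((s + t + 3) / Real.log (Real.log 3) * Real.log x) :=
            mul_le_mul hΛc h1 (by positivity) (by positivity)
        _ = 5 ^ s * ((s + t + 3) / Real.log (Real.log 3)) * (x ^ s * Real.log x) := by
            rw [mul_pow]
            ring
        _ ≤ 5 ^ s * ((s + t + 3) / Real.log (Real.log 3)) * (x ^ (s + t) * Real.log x) := by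
            apply mul_le_mul_of_nonneg_left _ (by positivity)
            apply mul_le_mul_of_nonneg_right _ hlx0.le
            exact pow_le_pow_right₀ hx1 (by omega)

end Pool.Agent.L0h76.H
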