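import Pool.Agent.L0h76.H.E3

/-!
# Final form, with the modules as hypotheses
-/

set_option autoImplicit false

namespace Pool.Agent.L0h76.H

open Finset

/-- the discrepancy of the first `N` terms of `z`, over all boxes `[u, v)` inside `[0, 1)^ι` -/
noncomputable def disc {ι : Type} [Fintype ι] (N : ℕ) (z : ℕ → ι → ℝ) : ℝ :=
  ⨆ B : {p : (ι → ℝ) × (ι → ℝ) // ∀ i, 0 ≤ p.1 i ∧ p.1 i ≤ p.2 i ∧ p.2 i ≤ 1},
    |(boxCount N z B.1.1 B.1.2 : ℝ) / N - ∏ i, (B.1.2 i - B.1.1 i)|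

theorem term_le_one {ι : Type} [Fintype ι] (N : ℕ) (z : ℕ → ι → ℝ)
    (B : {p : (ι → ℝ) × (ι → ℝ) // ∀ i, 0 ≤ p.1 i ∧ p.1 i ≤ p.2 i ∧ p.2 i ≤ 1}) :
    |(boxCount N z B.1.1 B.1.2 : ℝ) / N - ∏ i, (B.1.2 i - B.1.1 i)| ≤ 1 := by
  classical
  have h1 : (boxCount N z B.1.1 B.1.2 : ℝ) / N ≤ 1 := by
    apply div_le_one_of_le₀ _ (Nat.cast_nonneg _)
    have : boxCount N z B.1.1 B.1.2 ≤ N := by
      unfold boxCount
      refine le_trans (@card_filter_le _ _ _ (_)) ?_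
      rw [card_range]
    exact_mod_cast this
  have h2 : 0 ≤ (boxCount N z B.1.1 B.1.2 : ℝ) / N := by positivity
  have h3 : 0 ≤ ∏ i, (B.1.2 i - B.1.1 i) := by
    apply prod_nonneg
    intro i _
    have := (B.2 i).2.1
    linarith
  have h4 : ∏ i, (B.1.2 i - B.1.1 i) ≤ 1 := by
    apply prod_le_one
    · intro i _
      have := (B.2 i).2.1
      linarith
    · intro i _
      have h5 := (B.2 i).1
      have h6 := (B.2 i).2.2
      linarith
  rw [abs_le]
  constructor <;> linarith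

theorem disc_bddAbove {ι : Type} [Fintype ι] (N : ℕ) (z : ℕ → ι → ℝ) :
    BddAbove (Set.range fun B : {p : (ι → ℝ) × (ι → ℝ) //
      ∀ i, 0 ≤ p.1 i ∧ p.1 i ≤ p.2 i ∧ p.2 i ≤ 1} =>
      |(boxCount N z B.1.1 B.1.2 : ℝ) / N - ∏ i, (B.1.2 i - B.1.1 i)|) := by
  refine ⟨1, ?_⟩
  rintro x ⟨B, rfl⟩
  exact term_le_one N z B

theorem disc_le {ι : Type} [Fintype ι] (N : ℕ) (z : ℕ → ι → ℝ) (D : ℝ)
    (h : ∀ u v : ι → ℝ, (∀ i, 0 ≤ u i) → (∀ i, u i ≤ v i) → (∀ i, v i ≤ 1) →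
      |(boxCount N z u v : ℝ) / N - ∏ i, (v i - u i)| ≤ D) : disc N z ≤ D := by
  haveI : Nonempty {p : (ι → ℝ) × (ι → ℝ) // ∀ i, 0 ≤ p.1 i ∧ p.1 i ≤ p.2 i ∧ p.2 i ≤ 1} :=
    ⟨⟨(fun _ => 0, fun _ => 0), fun i => by simp⟩⟩
  apply ciSup_le
  intro B
  exact h _ _ (fun i => (B.2 i).1) (fun i => (B.2 i).2.1) (fun i => (B.2 i).2.2)

theorem disc_le_one {ι : Type} [Fintype ι] (N : ℕ) (z : ℕ → ι → ℝ) : disc N z ≤ 1 :=
  disc_le N z 1 fun u v h1 h2 h3 => term_le_one N z ⟨(u, v), fun i => ⟨h1 i, h2 i, h3 i⟩⟩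

theorem final (hA1 : StA1) (hA2' : StA2) (hA3 : StA3) (hB1 : StB1) (hB2 : StB2) (hB3 : StB3)
    (hD : StD) (s t : ℕ) (b : Fin s → ℕ) (hb : ∀ j, (b j).Prime)
    (hinj : Function.Injective b) :
    (∃ C : ℝ, ∀ N : ℕ, N.Prime → 3 ≤ N → (∀ j, b j ≠ N) →
      ∃ g : Fin t → ℕ, (∀ i, 1 ≤ g i ∧ g i ≤ N - 1) ∧
        disc N (pt b N g) ≤ C * (Real.log N ^ (s + t) * Real.log (Real.log N)) / N) ∧
    ∀ ε : ℝ, 0 < ε → ∃ C : ℝ, ∀ N : ℕ, N.Prime → (∀ j, b j ≠ N) →
      ∃ g : Fin t → ℕ, (∀ i, 1 ≤ g i ∧ g i ≤ N - 1) ∧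
        disc N (pt b N g) ≤ C * Real.log N ^ ((s : ℝ) + t + ε) / N := by
  have hl3 : 1 < Real.log 3 := by
    rw [Real.lt_log_iff_exp_lt (by norm_num)]
    have := Real.exp_one_lt_d9
    linarith
  have hll3 : 0 < Real.log (Real.log 3) := Real.log_pos hl3
  have main : ∃ C : ℝ, 0 ≤ C ∧ ∀ N : ℕ, N.Prime → 3 ≤ N → (∀ j, b j ≠ N) →
      ∃ g : Fin t → ℕ, (∀ i, 1 ≤ g i ∧ g i ≤ N - 1) ∧
        disc N (pt b N g) ≤ C * (Real.log N ^ (s + t) * Real.log (Real.log N)) / N := by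
    obtain ⟨C, N0, hC⟩ := large hA1 hA2' hA3 hB1 hB2 hB3 hD s t b hb hinj
    refine ⟨max C (N0 / Real.log (Real.log 3)), le_max_of_le_right (by positivity), ?_⟩
    intro N hNp hN3 hbN
    have hNpos : (0 : ℝ) < N := by exact_mod_cast hNp.pos
    have hx3 : Real.log 3 ≤ Real.log N := Real.log_le_log (by norm_num) (by exact_mod_cast hN3)
    have hlx : Real.log (Real.log 3) ≤ Real.log (Real.log N) :=
      Real.log_le_log (by linarith) hx3
    have hpos : 0 ≤ Real.log N ^ (s + t) * Real.log (Real.log N) :=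
      mul_nonneg (pow_nonneg (by linarith) _) (by linarith)
    by_cases hN0 : N0 ≤ N
    · obtain ⟨g, hg, hbox⟩ := hC N hNp hbN hN0
      refine ⟨g, hg, ?_⟩
      apply disc_le
      intro u v h1 h2 h3
      have h4 := hbox u v h1 h2 h3
      have h5 : (boxCount N (pt b N g) u v : ℝ) / N - ∏ i, (v i - u i) =
          ((boxCount N (pt b N g) u v : ℝ) - N * ∏ i, (v i - u i)) / N := by
        field_simp
      rw [h5, abs_div, abs_of_pos hNpos]
      apply div_le_div_of_nonneg_right _ hNpos.le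
      exact h4.trans (mul_le_mul_of_nonneg_right (le_max_left _ _) hpos)
    · push Not at hN0
      refine ⟨fun _ => 1, fun _ => ⟨le_rfl, ?_⟩, ?_⟩
      · change 1 ≤ N - 1
        omega
      · refine (disc_le_one _ _).trans ?_
        rw [le_div_iff₀ hNpos, one_mul]
        have h1 : (N : ℝ) ≤ N0 := by exact_mod_cast hN0.le
        have h2 : Real.log (Real.log 3) ≤ Real.log N ^ (s + t) * Real.log (Real.log N) := by
          have h3 : (1 : ℝ) ≤ Real.log N ^ (s + t) := one_le_pow₀ (by linarith)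
          nlinarith
        calc (N : ℝ) ≤ N0 := h1
          _ = N0 / Real.log (Real.log 3) * Real.log (Real.log 3) := by field_simp
          _ ≤ max C (N0 / Real.log (Real.log 3)) *
              (Real.log N ^ (s + t) * Real.log (Real.log N)) :=
              mul_le_mul (le_max_right _ _) h2 hll3.le (le_max_of_le_right (by positivity))
  refine ⟨?_, ?_⟩
  · obtain ⟨C, -, hC⟩ := main
    exact ⟨C, hC⟩
  · intro ε hε
    obtain ⟨C, hC0, hC⟩ := main
    have hl2 : 0 < Real.log 2 := Real.log_pos (by norm_num)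
    set e : ℝ := (s : ℝ) + t + ε with he
    refine ⟨max (C / ε) (2 / Real.log 2 ^ e), ?_⟩
    intro N hNp hbN
    have hNpos : (0 : ℝ) < N := by exact_mod_cast hNp.pos
    by_cases hN3 : 3 ≤ N
    · obtain ⟨g, hg, hd⟩ := hC N hNp hN3 hbN
      refine ⟨g, hg, hd.trans ?_⟩
      apply div_le_div_of_nonneg_right _ hNpos.le
      have hx3 : Real.log 3 ≤ Real.log N := Real.log_le_log (by norm_num) (by exact_mod_cast hN3)
      have hx0 : 0 < Real.log N := by linarith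
      have h1 : Real.log (Real.log N) ≤ Real.log N ^ ε / ε := Real.log_le_rpow_div hx0.le hε
      have h2 : Real.log N ^ (s + t) * (Real.log N ^ ε / ε) = Real.log N ^ e / ε := by
        rw [he, Real.rpow_add hx0, ← Nat.cast_add, Real.rpow_natCast]
        ring
      calc C * (Real.log N ^ (s + t) * Real.log (Real.log N))
          ≤ C * (Real.log N ^ (s + t) * (Real.log N ^ ε / ε)) := by gcongr
        _ = C / ε * Real.log N ^ e := by
            rw [h2]
            ring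
        _ ≤ _ := mul_le_mul_of_nonneg_right (le_max_left _ _) (by positivity)
    · have hN2 : N = 2 := by
        have := hNp.two_le
        omega
      refine ⟨fun _ => 1, fun _ => ⟨le_rfl, ?_⟩, (disc_le_one _ _).trans ?_⟩
      · change 1 ≤ N - 1
        omega
      · rw [le_div_iff₀ hNpos, one_mul, hN2]
        have h3 : 0 < Real.log 2 ^ e := Real.rpow_pos_of_pos hl2 _
        calc ((2 : ℕ) : ℝ) = 2 / Real.log 2 ^ e * Real.log 2 ^ e := by
              field_simp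
              norm_num
          _ ≤ _ := mul_le_mul_of_nonneg_right (le_max_right _ _) (by positivity)

end Pool.Agent.L0h76.H
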